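import Mathlib

/-!
# The double unit square, its isometric realizations in space, the enclosed volume
-/

set_option autoImplicit false

namespace Pool.Agent.Lib.MP_a3bd00_gt

open Set MeasureTheory

/-- The Euclidean plane. -/
abbrev Plane : Type := EuclideanSpace ℝ (Fin 2)

/-- The Euclidean space of dimension three. -/
abbrev Space : Type := EuclideanSpace ℝ (Fin 3)

/-- The closed unit square `[0,1]²` in the plane. -/
def square : Set Plane := {p | ∀ i, 0 ≤ p i ∧ p i ≤ 1}

/-- The boundary of the unit square. -/
def squareEdge : Set Plane := {p | p ∈ square ∧ ∃ i, p i = 0 ∨ p i = 1}

/-- The identification of the two copies of the unit square (indexed by the booleans) along their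
boundaries. -/
def glue : Setoid (Bool × square) where
  r a b := a.2 = b.2 ∧ (a.1 = b.1 ∨ (a.2 : Plane) ∈ squareEdge)
  iseqv := by
    refine ⟨fun a => ⟨rfl, Or.inl rfl⟩, ?_, ?_⟩
    · rintro a b ⟨h, h'⟩
      refine ⟨h.symm, ?_⟩
      rcases h' with h' | h'
      · exact Or.inl h'.symm
      · exact Or.inr (h ▸ h')
    · rintro a b c ⟨h, h'⟩ ⟨k, k'⟩
      refine ⟨h.trans k, ?_⟩
      rcases h' with h' | h'
      · rcases k' with k' | k'
        · exact Or.inl (h'.trans k')
        · exact Or.inr (h ▸ k')
      · exact Or.inr h'

/-- The double unit square: two copies of the unit square identified along their boundaries. -/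
def DoubleSquare : Type := Quotient glue

/-- The double unit square carries the quotient topology. -/
instance : TopologicalSpace DoubleSquare := inferInstanceAs (TopologicalSpace (Quotient glue))

/-- The map from the double unit square to the unit square which is the identity on each of the two
copies. The intrinsic length of a curve in the double square is the Euclidean length of its image
under this map. -/
def fold : DoubleSquare → Plane :=
  Quotient.lift (fun a : Bool × square => (a.2 : Plane)) (fun _ _ h => congrArg Subtype.val h.1)

/-- An isometric realization of the double unit square in space: a continuous injective map which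
preserves the length of every rectifiable curve `γ : [0,1] → DoubleSquare`. Lengths are total
variations (`eVariationOn`), and the intrinsic length of `γ` is the length of `fold ∘ γ`. -/
structure IsIsometricRealization (f : DoubleSquare → Space) : Prop where
  continuous : Continuous f
  injective : Function.Injective f
  length_eq : ∀ γ : ℝ → DoubleSquare, ContinuousOn γ (Icc 0 1) →
    eVariationOn (fold ∘ γ) (Icc 0 1) ≠ ⊤ →
    eVariationOn (f ∘ γ) (Icc 0 1) = eVariationOn (fold ∘ γ) (Icc 0 1)

/-- The region enclosed by the set `K` in space: the points outside `K` whose connected component
in the complement of `K` is bounded. -/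
def enclosed (K : Set Space) : Set Space :=
  {x | x ∉ K ∧ Bornology.IsBounded (connectedComponentIn Kᶜ x)}

/-- The supremum of the volumes enclosed by the isometric realizations of the double unit
square. -/
noncomputable def maxVolume : ENNReal :=
  ⨆ (f : DoubleSquare → Space) (_ : IsIsometricRealization f), volume (enclosed (range f))

end Pool.Agent.Lib.MP_a3bd00_gt
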