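import Pool.Agent.Lib.MP_a3bd00_gt.Defs

/-!
# Two sheets and the straight filling between them (shared definitions)
-/

set_option autoImplicit false

namespace Pool.Agent.Lib.MP_a3bd00_gt

open Set MeasureTheory

/-- The midpoint of the two sheets. -/
noncomputable def mid (F G : Plane → Space) (p : Plane) : Space := (2 : ℝ)⁻¹ • (F p + G p)

/-- Half of the difference of the two sheets. -/
noncomputable def half (F G : Plane → Space) (p : Plane) : Space := (2 : ℝ)⁻¹ • (F p - G p)

/-- The union of the segments between corresponding points of the two sheets. -/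
def fill (F G : Plane → Space) : Set Space :=
  {x | ∃ p ∈ square, ∃ s ∈ Icc (-1 : ℝ) 1, x = mid F G p + s • half F G p}

/-- Two maps which do not increase distances and agree on the boundary of the square. -/
structure Sheets (F G : Plane → Space) : Prop where
  lipF : LipschitzWith 1 F
  lipG : LipschitzWith 1 G
  edge : ∀ p ∈ squareEdge, F p = G p

/-- The determinant of three vectors. -/
def triple (a b c : Space) : ℝ :=
  a 0 * (b 1 * c 2 - b 2 * c 1) - a 1 * (b 0 * c 2 - b 2 * c 0) + a 2 * (b 0 * c 1 - b 1 * c 0)

/-- The derivative in the direction `v` of the section `q ↦ mid q + s • half q` at `p`. -/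
noncomputable def slice (F G : Plane → Space) (p : Plane) (s : ℝ) (v : Plane) : Space :=
  ((1 + s) / 2) • fderiv ℝ F p v + ((1 - s) / 2) • fderiv ℝ G p v

/-- The standard basis vectors of the plane. -/
noncomputable def e (i : Fin 2) : Plane := EuclideanSpace.single i 1

/-- The unsigned Jacobian of the filling, integrated over the segment at `p`. -/
noncomputable def jac (F G : Plane → Space) (p : Plane) : ENNReal :=
  ∫⁻ s in Icc (-1 : ℝ) 1,
    ENNReal.ofReal |triple (slice F G p s (e 0)) (slice F G p s (e 1)) (half F G p)|

/-- The square without a strip of width `ε` along its boundary. -/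
def inner (ε : ℝ) : Set Plane := {p | ∀ i, ε ≤ p i ∧ p i ≤ 1 - ε}

/-! The certificate: a vector field on the square. -/

/-- The polynomial `a(P,T)`. -/
noncomputable def pa (P T : ℝ) : ℝ :=
  (562 + 5074 * T + 4142 * T ^ 2 + 654 * T ^ 3 - 432 * P + 2509 * P * T - 2025 * P * T ^ 2
    - 4088 * P ^ 2 + 3909 * P ^ 2 * T - 1512 * P ^ 3) / 10000

/-- The derivative of `a(P,T)` in the variable `P`. -/
noncomputable def paP (P T : ℝ) : ℝ :=
  (- 432 + 2509 * T - 2025 * T ^ 2 - 8176 * P + 7818 * P * T - 4536 * P ^ 2) / 10000

/-- The polynomial `m(P,T)`. -/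
noncomputable def pm (P T : ℝ) : ℝ :=
  (720 + 4281 * (P + T) + 5432 * (P ^ 2 + T ^ 2) - 8756 * P * T) / 10000

/-- `4 x (1 - x)`. -/
noncomputable def par (x : ℝ) : ℝ := 4 * x * (1 - x)

/-- The first component of the vector field, as a function of the two coordinates. -/
noncomputable def fld (x y : ℝ) : ℝ := pa (par x) (par y) * (1 - 2 * x) / par x

/-- The derivative of `fld x y` in the first variable, with the opposite sign. -/
noncomputable def nfld (x y : ℝ) : ℝ :=
  4 / (par x) ^ 2 * (pa (par x) (par y) * (1 - par x / 2)
    - par x * (1 - par x) * paP (par x) (par y))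

/-- The vector field. -/
noncomputable def field (p : Plane) : Plane := !₂[fld (p 0) (p 1), fld (p 1) (p 0)]

/-- Minus the divergence of the vector field. -/
noncomputable def negdiv (p : Plane) : ℝ := nfld (p 0) (p 1) + nfld (p 1) (p 0)

/-- The density whose integral bounds the volume. -/
noncomputable def dens (p : Plane) : ℝ := pm (par (p 0)) (par (p 1)) / 4

end Pool.Agent.Lib.MP_a3bd00_gt
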