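import Pool.Agent.Lib.MP_a3bd00_gt.Fill
import Pool.Agent.Lib.Brouwer.Basic

/-!
# J1: the enclosed region of `K` is covered by every continuous map which is the identity on `K`
-/

set_option autoImplicit false

namespace Pool.Agent.Lib.MP_a3bd00_gt

open Set MeasureTheory

theorem J1_isOpen {K : Set Space} (hK : IsCompact K) : IsOpen (enclosed K) := by
  rw [isOpen_iff_mem_nhds]
  rintro x ⟨hx, hb⟩
  have hKo : IsOpen Kᶜ := hK.isClosed.isOpen_compl
  have hC : IsOpen (connectedComponentIn Kᶜ x) := hKo.connectedComponentIn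
  have hxC : x ∈ connectedComponentIn Kᶜ x := mem_connectedComponentIn hx
  refine Filter.mem_of_superset (hC.mem_nhds hxC) ?_
  intro y hy
  refine ⟨connectedComponentIn_subset _ _ hy, ?_⟩
  rw [← connectedComponentIn_eq hy]
  exact hb

theorem J1_bounded {K : Set Space} (hK : IsCompact K) : ∃ R : ℝ, 0 < R ∧
    ∀ x ∈ enclosed K, ‖x‖ ≤ R := by
  obtain ⟨R, hR⟩ := hK.isBounded.subset_closedBall (0 : Space)
  refine ⟨max R 1, lt_of_lt_of_le one_pos (le_max_right _ _), ?_⟩
  rintro x ⟨hx, hb⟩
  by_contra hcon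
  push Not at hcon
  have hxR : R < ‖x‖ := lt_of_le_of_lt (le_max_left _ _) hcon
  have hx1 : 1 < ‖x‖ := lt_of_le_of_lt (le_max_right _ _) hcon
  have hconn : IsPreconnected ((fun t : ℝ => t • x) '' Ici 1) :=
    isPreconnected_Ici.image _ (by fun_prop)
  have hsub : (fun t : ℝ => t • x) '' Ici 1 ⊆ Kᶜ := by
    rintro _ ⟨t, ht, rfl⟩ hK'
    have h1 := hR hK'
    rw [mem_closedBall_zero_iff] at h1
    have ht' : (1 : ℝ) ≤ t := ht
    have h2 : ‖x‖ ≤ ‖t • x‖ := by
      rw [norm_smul, Real.norm_of_nonneg (by linarith)]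
      nlinarith [norm_nonneg x]
    have h3 : ‖t • x‖ ≤ R := h1
    linarith
  have hsub2 := hconn.subset_connectedComponentIn (x := x) ⟨1, by simp, by simp⟩ hsub
  obtain ⟨B, hB⟩ := (hb.subset hsub2).subset_closedBall (0 : Space)
  have hmem : (max B 1 + 1) • x ∈ Metric.closedBall (0 : Space) B := by
    refine hB ⟨max B 1 + 1, ?_, rfl⟩
    show (1 : ℝ) ≤ max B 1 + 1
    have := le_max_right B 1
    linarith
  rw [mem_closedBall_zero_iff, norm_smul, Real.norm_of_nonneg (by positivity)] at hmem
  have h1 := le_max_left B 1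
  have h2 := le_max_right B 1
  nlinarith

theorem J1_frontier {K : Set Space} (hK : IsCompact K) : frontier (enclosed K) ⊆ K := by
  intro y hy
  rw [(J1_isOpen hK).frontier_eq] at hy
  obtain ⟨hy1, hy2⟩ := hy
  by_contra hyK
  have hKo : IsOpen Kᶜ := hK.isClosed.isOpen_compl
  have hC : IsOpen (connectedComponentIn Kᶜ y) := hKo.connectedComponentIn
  have hyC : y ∈ connectedComponentIn Kᶜ y := mem_connectedComponentIn hyK
  obtain ⟨z, hz1, hz2⟩ := mem_closure_iff.1 hy1 _ hC hyC
  apply hy2
  refine ⟨hyK, ?_⟩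
  rw [connectedComponentIn_eq hz1]
  exact hz2.2

/-- J1 -/
theorem enclosed_subset_range {K : Set Space} (hK : IsCompact K) {h : Space → Space}
    (hc : Continuous h) (hid : ∀ x ∈ K, h x = x) : enclosed K ⊆ range h := by
  classical
  intro p hp
  by_contra hpr
  obtain ⟨R0, hR0, hb⟩ := J1_bounded hK
  set O := enclosed K with hO
  set g : Space → Space := (closure O).piecewise h id with hg
  have hgc : Continuous g := by
    refine Continuous.piecewise ?_ hc continuous_id
    intro a ha
    have h1 : a ∈ K := J1_frontier hK (frontier_closure_subset ha)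
    rw [hid a h1, id]
  have hgp : ∀ x, g x ≠ p := by
    intro x hx
    by_cases hxO : x ∈ closure O
    · rw [hg, Set.piecewise_eq_of_mem _ _ _ hxO] at hx
      exact hpr ⟨x, hx⟩
    · rw [hg, Set.piecewise_eq_of_notMem _ _ _ hxO] at hx
      apply hxO
      rw [id] at hx
      rw [hx]
      exact subset_closure hp
  -- the radius
  have hbc : ∀ x ∈ closure O, ‖x‖ ≤ R0 := by
    intro x hx
    have h1 : closure O ⊆ Metric.closedBall (0 : Space) R0 :=
      closure_minimal (fun z hz => by
        rw [mem_closedBall_zero_iff]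
        exact hb z hz) Metric.isClosed_closedBall
    have h2 := h1 hx
    rwa [mem_closedBall_zero_iff] at h2
  set R : ℝ := 2 * R0 + 1 with hR
  have hRpos : 0 < R := by positivity
  have hfar : ∀ x ∈ closure O, ‖WithLp.ofLp (x - p)‖ < R := by
    intro x hx
    rw [pi_norm_lt_iff hRpos]
    intro i
    have h1 : ‖(x - p) i‖ ≤ ‖x - p‖ := PiLp.norm_apply_le (x - p) i
    have h2 : ‖x - p‖ ≤ ‖x‖ + ‖p‖ := norm_sub_le _ _
    have h3 := hbc x hx
    have h4 := hbc p (subset_closure hp)
    have h5 : ‖(x - p) i‖ < R := by linarith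
    exact h5
  have hne : ∀ x, WithLp.ofLp (g x - p) ≠ 0 := by
    intro x hx
    apply hgp x
    have h1 : g x - p = 0 := by
      ext i
      exact congrFun hx i
    exact sub_eq_zero.1 h1
  -- the self map of the box
  let φ : (Fin 3 → ℝ) → Space := fun y => WithLp.toLp 2 (fun i => p i - R + y i)
  let N : (Fin 3 → ℝ) → ℝ := fun y => ‖WithLp.ofLp (g (φ y) - p)‖
  let T : (Fin 3 → ℝ) → (Fin 3 → ℝ) := fun y i =>
    R - R * ((g (φ y) - p) i) / N y
  have hφ : Continuous φ := by
    refine (PiLp.continuous_toLp 2 _).comp ?_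
    fun_prop
  have hNpos : ∀ y, 0 < N y := fun y => norm_pos_iff.2 (hne (φ y))
  have hgφ : Continuous (fun y => g (φ y) - p) := (hgc.comp hφ).sub continuous_const
  have hNc : Continuous N := ((PiLp.continuous_ofLp 2 _).comp hgφ).norm
  have hTc : Continuous T := by
    refine continuous_pi (fun i => ?_)
    refine continuous_const.sub ((continuous_const.mul ?_).div hNc (fun y => (hNpos y).ne'))
    exact (continuous_apply i).comp ((PiLp.continuous_ofLp 2 _).comp hgφ)
  have habs : ∀ y i, |(g (φ y) - p) i / N y| ≤ 1 := by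
    intro y i
    rw [abs_div, abs_of_pos (hNpos y), div_le_one (hNpos y)]
    have h1 := norm_le_pi_norm (WithLp.ofLp (g (φ y) - p)) i
    rwa [Real.norm_eq_abs] at h1
  have hTm : ∀ y ∈ Set.Icc (0 : Fin 3 → ℝ) (fun _ => 2 * R),
      T y ∈ Set.Icc (0 : Fin 3 → ℝ) (fun _ => 2 * R) := by
    intro y _
    constructor
    · intro i
      have h1 := abs_le.1 (habs y i)
      show (0 : ℝ) ≤ R - R * ((g (φ y) - p) i) / N y
      rw [mul_div_assoc]
      nlinarith [h1.2]
    · intro i
      have h1 := abs_le.1 (habs y i)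
      show R - R * ((g (φ y) - p) i) / N y ≤ 2 * R
      rw [mul_div_assoc]
      nlinarith [h1.1]
  obtain ⟨y, -, hy⟩ := Pool.Agent.Brouwer.brouwer_box (2 * R) (by positivity) T hTc.continuousOn hTm
  -- the fixed point
  have hxi : ∀ i, (φ y - p) i = - (R / N y) * (g (φ y) - p) i := by
    intro i
    have h1 : R - R * ((g (φ y) - p) i) / N y = y i := congrFun hy i
    have h2 : (φ y - p) i = (p i - R + y i) - p i := rfl
    rw [h2, ← h1]
    ring
  have hnorm : ‖WithLp.ofLp (φ y - p)‖ = R := by
    have h1 : WithLp.ofLp (φ y - p) = (- (R / N y)) • WithLp.ofLp (g (φ y) - p) := by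
      funext i
      exact hxi i
    rw [h1, norm_smul, norm_neg, norm_div, Real.norm_of_nonneg hRpos.le,
      Real.norm_of_nonneg (hNpos y).le]
    show R / N y * N y = R
    field_simp [(hNpos y).ne']
  have hout : φ y ∉ closure O := by
    intro hmem
    have := hfar _ hmem
    linarith
  have hgy : g (φ y) = φ y := by
    rw [hg, Set.piecewise_eq_of_notMem _ _ _ hout, id]
  have hN : N y = R := by
    show ‖WithLp.ofLp (g (φ y) - p)‖ = R
    rw [hgy]
    exact hnorm
  have hzero : WithLp.ofLp (φ y - p) = 0 := by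
    funext i
    have h1 := hxi i
    rw [hgy, hN, div_self hRpos.ne'] at h1
    have h2 : (φ y - p) i = 0 := by linarith
    exact h2
  rw [hzero, norm_zero] at hnorm
  linarith

end Pool.Agent.Lib.MP_a3bd00_gt
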