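import Pool.Agent.Lib.MP_a3bd00_gt.Fill

set_option autoImplicit false

namespace Pool.Agent.Lib.MP_a3bd00_gt

open Set MeasureTheory

/-- coordinatewise clamping to the unit interval -/
noncomputable def J2_clampFun (p : Plane) : Plane :=
  WithLp.toLp 2 (fun i => (Set.projIcc (0 : ℝ) 1 zero_le_one (p i) : ℝ))

lemma J2_clampFun_apply (p : Plane) (i : Fin 2) :
    J2_clampFun p i = (Set.projIcc (0 : ℝ) 1 zero_le_one (p i) : ℝ) := rfl

lemma J2_clampFun_mem (p : Plane) : J2_clampFun p ∈ square := by
  intro i
  rw [J2_clampFun_apply]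
  exact (Set.projIcc (0 : ℝ) 1 zero_le_one (p i)).2

lemma J2_clampFun_of_mem {p : Plane} (hp : p ∈ square) : J2_clampFun p = p := by
  ext i
  rw [J2_clampFun_apply, Set.projIcc_of_mem zero_le_one (hp i)]

lemma J2_clampFun_lip : LipschitzWith 1 J2_clampFun := by
  refine LipschitzWith.of_dist_le_mul fun p q => ?_
  rw [NNReal.coe_one, one_mul, EuclideanSpace.dist_eq, EuclideanSpace.dist_eq]
  refine Real.sqrt_le_sqrt (Finset.sum_le_sum fun i _ => ?_)
  have h := (LipschitzWith.projIcc (zero_le_one (α := ℝ))).dist_le_mul (p i) (q i)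
  rw [NNReal.coe_one, one_mul] at h
  exact pow_le_pow_left₀ dist_nonneg h 2

/-- clamping as a map into the square -/
noncomputable def J2_clamp (p : Plane) : square := ⟨J2_clampFun p, J2_clampFun_mem p⟩

lemma J2_clamp_coe (q : square) : J2_clamp (q : Plane) = q :=
  Subtype.ext (J2_clampFun_of_mem q.2)

lemma J2_clamp_of_mem {p : Plane} (hp : p ∈ square) : (J2_clamp p : Plane) = p :=
  J2_clampFun_of_mem hp

lemma J2_clamp_continuous : Continuous J2_clamp :=
  J2_clampFun_lip.continuous.subtype_mk _

lemma J2_square_convex : Convex ℝ square := by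
  intro p hp q hq a b ha hb hab i
  obtain ⟨h1, h2⟩ := hp i
  obtain ⟨h3, h4⟩ := hq i
  have : (a • p + b • q) i = a * p i + b * q i := by simp
  rw [this]
  constructor
  · positivity
  · nlinarith

lemma J2_sheet_lip {f : DoubleSquare → Space} (hf : IsIsometricRealization f) (b : Bool) :
    LipschitzWith 1 (fun p : Plane => f (Quotient.mk glue (b, J2_clamp p))) := by
  intro p q
  rw [ENNReal.coe_one, one_mul]
  set p' : Plane := J2_clampFun p with hp'
  set q' : Plane := J2_clampFun q with hq'
  have hp'm : p' ∈ square := J2_clampFun_mem p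
  have hq'm : q' ∈ square := J2_clampFun_mem q
  let γ : ℝ → DoubleSquare := fun t => Quotient.mk glue (b, J2_clamp (AffineMap.lineMap p' q' t))
  have hγc : Continuous γ := by
    have h1 : Continuous (fun t : ℝ => ((b, J2_clamp (AffineMap.lineMap p' q' t)) : Bool × square)) :=
      continuous_const.prodMk (J2_clamp_continuous.comp AffineMap.lineMap_continuous)
    exact continuous_quot_mk.comp h1
  have hfold : ∀ t ∈ Icc (0 : ℝ) 1, (fold ∘ γ) t = AffineMap.lineMap p' q' t := by
    intro t ht
    show (J2_clamp (AffineMap.lineMap p' q' t) : Plane) = _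
    apply J2_clamp_of_mem
    exact J2_square_convex.lineMap_mem hp'm hq'm ht
  have hvar : eVariationOn (fold ∘ γ) (Icc 0 1) ≤ edist p' q' := by
    rw [eVariationOn.eq_of_eqOn (f' := fun t => AffineMap.lineMap p' q' t) hfold]
    have h1 : LipschitzOnWith (nndist p' q') (fun t : ℝ => AffineMap.lineMap p' q' t) univ :=
      (lipschitzWith_lineMap p' q').lipschitzOnWith
    have h2 := h1.comp_eVariationOn_le (f := fun t : ℝ => AffineMap.lineMap p' q' t)
      (g := (id : ℝ → ℝ)) (s := Icc (0 : ℝ) 1) (mapsTo_univ _ _)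
    have h3 : eVariationOn (id : ℝ → ℝ) (Icc (0 : ℝ) 1) ≤ 1 := by
      have := ((monotone_id.monotoneOn (Icc (0 : ℝ) 1)).eVariationOn_eq
        (left_mem_Icc.2 zero_le_one) (right_mem_Icc.2 zero_le_one)).le
      rw [inter_self] at this
      simpa only [id, sub_zero, ENNReal.ofReal_one] using this
    calc _ ≤ _ := h2
      _ ≤ (nndist p' q' : ENNReal) * 1 := by gcongr
      _ = edist p' q' := by rw [mul_one, edist_nndist]
  have hne : eVariationOn (fold ∘ γ) (Icc 0 1) ≠ ⊤ :=
    ne_top_of_le_ne_top (edist_ne_top _ _) hvar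
  have heq := hf.length_eq γ hγc.continuousOn hne
  have h5 : edist ((f ∘ γ) 0) ((f ∘ γ) 1) ≤ eVariationOn (f ∘ γ) (Icc 0 1) :=
    eVariationOn.edist_le _ (left_mem_Icc.2 zero_le_one) (right_mem_Icc.2 zero_le_one)
  have h6 : (f ∘ γ) 0 = f (Quotient.mk glue (b, J2_clamp p)) := by
    show f (Quotient.mk glue (b, J2_clamp (AffineMap.lineMap p' q' (0 : ℝ)))) = _
    rw [AffineMap.lineMap_apply_zero]
    have : J2_clamp p' = J2_clamp p := J2_clamp_coe (J2_clamp p)
    rw [this]
  have h7 : (f ∘ γ) 1 = f (Quotient.mk glue (b, J2_clamp q)) := by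
    show f (Quotient.mk glue (b, J2_clamp (AffineMap.lineMap p' q' (1 : ℝ)))) = _
    rw [AffineMap.lineMap_apply_one]
    have : J2_clamp q' = J2_clamp q := J2_clamp_coe (J2_clamp q)
    rw [this]
  have h8 : edist p' q' ≤ edist p q := by
    have := J2_clampFun_lip p q
    rwa [ENNReal.coe_one, one_mul] at this
  show edist (f (Quotient.mk glue (b, J2_clamp p))) (f (Quotient.mk glue (b, J2_clamp q))) ≤ _
  rw [← h6, ← h7]
  exact h5.trans ((heq.le.trans hvar).trans h8)

/-- J2a -/
theorem exists_sheets {f : DoubleSquare → Space} (hf : IsIsometricRealization f) :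
    ∃ F G : Plane → Space, Sheets F G ∧
      (∀ q : square, F q = f (Quotient.mk glue (true, q))) ∧
      (∀ q : square, G q = f (Quotient.mk glue (false, q))) := by
  refine ⟨fun p => f (Quotient.mk glue (true, J2_clamp p)),
    fun p => f (Quotient.mk glue (false, J2_clamp p)),
    ⟨J2_sheet_lip hf true, J2_sheet_lip hf false, ?_⟩, ?_, ?_⟩
  · intro p hp
    show f (Quotient.mk glue (true, J2_clamp p)) = f (Quotient.mk glue (false, J2_clamp p))
    congr 1
    apply Quotient.sound
    refine ⟨rfl, Or.inr ?_⟩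
    show (J2_clamp p : Plane) ∈ squareEdge
    rw [J2_clamp_of_mem hp.1]
    exact hp
  · intro q
    show f (Quotient.mk glue (true, J2_clamp (q : Plane))) = _
    rw [J2_clamp_coe]
  · intro q
    show f (Quotient.mk glue (false, J2_clamp (q : Plane))) = _
    rw [J2_clamp_coe]

lemma J2_square_compact : IsCompact square := by
  have h1 : IsCompact (Icc (0 : Fin 2 → ℝ) 1) := isCompact_Icc
  have h2 : square = (fun v : Fin 2 → ℝ => (WithLp.toLp 2 v : Plane)) '' Icc (0 : Fin 2 → ℝ) 1 := by
    ext p
    constructor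
    · intro hp
      refine ⟨fun i => p i, ⟨fun i => (hp i).1, fun i => (hp i).2⟩, ?_⟩
      ext i
      rfl
    · rintro ⟨v, ⟨hv1, hv2⟩, rfl⟩ i
      exact ⟨hv1 i, hv2 i⟩
  rw [h2]
  exact h1.image (PiLp.continuous_toLp 2 _)

lemma J2_continuous_div_smul {X E : Type*} [TopologicalSpace X] [NormedAddCommGroup E]
    [NormedSpace ℝ E] {t : X → ℝ} {v : X → E} (ht : Continuous t) (hv : Continuous v)
    (hle : ∀ x, |t x| ≤ ‖v x‖) : Continuous (fun x => (t x / ‖v x‖) • v x) := by
  rw [continuous_iff_continuousAt]
  intro x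
  by_cases hx : ‖v x‖ = 0
  · have h0 : (t x / ‖v x‖) • v x = 0 := by rw [hx, div_zero, zero_smul]
    rw [ContinuousAt, h0]
    have h1 : Filter.Tendsto (fun y => ‖v y‖) (nhds x) (nhds 0) := by
      have := hv.norm.tendsto x
      rwa [hx] at this
    refine squeeze_zero_norm (fun y => ?_) h1
    rw [norm_smul, norm_div, norm_norm, Real.norm_eq_abs]
    by_cases hy : ‖v y‖ = 0
    · rw [hy]; simp
    · rw [div_mul_cancel₀ _ hy]; exact hle y
  · exact ((ht.continuousAt.div hv.norm.continuousAt hx).smul hv.continuousAt)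

/-- the sign of a sheet -/
noncomputable def J2_sgn (b : Bool) : ℝ := if b then 1 else -1

/-- the signed half distance of the two sheets -/
noncomputable def J2_delta (F G : Plane → Space) (hS : Sheets F G) : DoubleSquare → ℝ :=
  Quotient.lift (fun a : Bool × square => J2_sgn a.1 * ‖half F G (a.2 : Plane)‖) (by
    rintro ⟨b, q⟩ ⟨b', q'⟩ ⟨h1, h2⟩
    simp only at h1 h2
    subst h1
    rcases h2 with h2 | h2
    · subst h2; rfl
    · have h3 : half F G (q : Plane) = 0 := by
        unfold half
        rw [hS.edge _ h2, sub_self, smul_zero]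
      show J2_sgn b * ‖half F G (q : Plane)‖ = J2_sgn b' * ‖half F G (q : Plane)‖
      rw [h3]
      simp)

lemma J2_half_continuous {F G : Plane → Space} (hS : Sheets F G) : Continuous (half F G) := by
  exact (hS.lipF.continuous.sub hS.lipG.continuous).const_smul (2 : ℝ)⁻¹

lemma J2_mid_continuous {F G : Plane → Space} (hS : Sheets F G) : Continuous (mid F G) := by
  exact (hS.lipF.continuous.add hS.lipG.continuous).const_smul (2 : ℝ)⁻¹

lemma J2_delta_continuous (F G : Plane → Space) (hS : Sheets F G) :
    Continuous (J2_delta F G hS) := by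
  refine Continuous.quotient_lift ?_ _
  have h1 : Continuous J2_sgn := continuous_of_discreteTopology
  exact (h1.comp continuous_fst).mul
    (((J2_half_continuous hS).comp (continuous_subtype_val.comp continuous_snd)).norm)

lemma J2_fold_continuous : Continuous fold :=
  Continuous.quotient_lift (continuous_subtype_val.comp continuous_snd) _

/-- J2b -/
theorem exists_retraction {f : DoubleSquare → Space} (hc : Continuous f)
    (hi : Function.Injective f) {F G : Plane → Space} (hS : Sheets F G)
    (hF : ∀ q : square, F q = f (Quotient.mk glue (true, q)))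
    (hG : ∀ q : square, G q = f (Quotient.mk glue (false, q))) :
    IsCompact (range f) ∧
    ∃ h : Space → Space, Continuous h ∧ (∀ x ∈ range f, h x = x) ∧ range h ⊆ fill F G := by
  have : CompactSpace square := isCompact_iff_compactSpace.1 J2_square_compact
  have : CompactSpace DoubleSquare := inferInstanceAs (CompactSpace (Quotient glue))
  have hemb : Topology.IsClosedEmbedding f := hc.isClosedEmbedding hi
  refine ⟨isCompact_range hc, ?_⟩
  have hcoord : ∀ i : Fin 2, Continuous (fun d : DoubleSquare => fold d i) := fun i =>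
    ((continuous_apply i).comp (PiLp.continuous_ofLp 2 _)).comp J2_fold_continuous
  choose α hα using fun i : Fin 2 =>
    ContinuousMap.exists_extension hemb (⟨fun d => fold d i, hcoord i⟩ : C(DoubleSquare, ℝ))
  obtain ⟨β, hβ⟩ := ContinuousMap.exists_extension hemb
    (⟨J2_delta F G hS, J2_delta_continuous F G hS⟩ : C(DoubleSquare, ℝ))
  have hα' : ∀ (i : Fin 2) (d : DoubleSquare), α i (f d) = fold d i := fun i d =>
    congrArg (fun g : C(DoubleSquare, ℝ) => g d) (hα i)
  have hβ' : ∀ d : DoubleSquare, β (f d) = J2_delta F G hS d := fun d =>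
    congrArg (fun g : C(DoubleSquare, ℝ) => g d) hβ
  let A : Space → Plane := fun x => WithLp.toLp 2 (fun i => α i x)
  have hA : Continuous A :=
    (PiLp.continuous_toLp 2 _).comp (continuous_pi fun i => (α i).continuous)
  let q : Space → Plane := fun x => J2_clampFun (A x)
  have hq : Continuous q := J2_clampFun_lip.continuous.comp hA
  let v : Space → Space := fun x => half F G (q x)
  have hv : Continuous v := (J2_half_continuous hS).comp hq
  let t : Space → ℝ := fun x => max (-‖v x‖) (min ‖v x‖ (β x))
  have ht : Continuous t := (hv.norm.neg).max (hv.norm.min β.continuous)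
  have htle : ∀ x, |t x| ≤ ‖v x‖ := by
    intro x
    rw [abs_le]
    refine ⟨le_max_left _ _, max_le ?_ (min_le_left _ _)⟩
    have := norm_nonneg (v x)
    linarith
  refine ⟨fun x => mid F G (q x) + (t x / ‖v x‖) • v x,
    ((J2_mid_continuous hS).comp hq).add (J2_continuous_div_smul ht hv htle), ?_, ?_⟩
  · rintro _ ⟨d, rfl⟩
    obtain ⟨⟨b, p⟩, rfl⟩ := Quotient.exists_rep d
    have e1 : A (f (Quotient.mk glue (b, p))) = (p : Plane) := by
      ext i
      exact hα' i _
    have e2 : q (f (Quotient.mk glue (b, p))) = (p : Plane) := by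
      show J2_clampFun (A _) = _
      rw [e1]
      exact J2_clampFun_of_mem p.2
    have e3 : v (f (Quotient.mk glue (b, p))) = half F G (p : Plane) := by
      show half F G (q _) = _
      rw [e2]
    have e4 : β (f (Quotient.mk glue (b, p))) = J2_sgn b * ‖half F G (p : Plane)‖ := hβ' _
    have hn := norm_nonneg (half F G (p : Plane))
    have e5 : t (f (Quotient.mk glue (b, p))) = J2_sgn b * ‖half F G (p : Plane)‖ := by
      show max (-‖v _‖) (min ‖v _‖ (β _)) = _
      rw [e3, e4]
      unfold J2_sgn
      cases b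
      · simp only [Bool.false_eq_true, if_false, neg_mul, one_mul]
        rw [min_eq_right (by linarith), max_self]
      · simp only [if_true, one_mul, min_self]
        rw [max_eq_right (by linarith)]
    have e6 : (t (f (Quotient.mk glue (b, p))) / ‖v (f (Quotient.mk glue (b, p)))‖) •
        v (f (Quotient.mk glue (b, p))) = J2_sgn b • half F G (p : Plane) := by
      rw [e5, e3]
      by_cases h0 : half F G (p : Plane) = 0
      · rw [h0]; simp
      · rw [mul_div_assoc, div_self (norm_ne_zero_iff.2 h0), mul_one]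
    show mid F G (q _) + _ = _
    rw [e6, e2]
    cases b
    · rw [← hG]
      unfold J2_sgn mid half
      simp only [Bool.false_eq_true, if_false, neg_smul, one_smul]
      rw [smul_add, smul_sub]
      have h2 : (2 : ℝ)⁻¹ • G (p : Plane) + (2 : ℝ)⁻¹ • G (p : Plane) = G (p : Plane) := by
        rw [← add_smul]; norm_num
      calc _ = (2 : ℝ)⁻¹ • G (p : Plane) + (2 : ℝ)⁻¹ • G (p : Plane) := by abel
        _ = _ := h2
    · rw [← hF]
      unfold J2_sgn mid half
      simp only [if_true, one_smul]
      rw [smul_add, smul_sub]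
      have h2 : (2 : ℝ)⁻¹ • F (p : Plane) + (2 : ℝ)⁻¹ • F (p : Plane) = F (p : Plane) := by
        rw [← add_smul]; norm_num
      calc _ = (2 : ℝ)⁻¹ • F (p : Plane) + (2 : ℝ)⁻¹ • F (p : Plane) := by abel
        _ = _ := h2
  · rintro _ ⟨x, rfl⟩
    refine ⟨q x, J2_clampFun_mem _, t x / ‖v x‖, ?_, rfl⟩
    have h1 : |t x / ‖v x‖| ≤ 1 := by
      rw [abs_div, abs_norm]
      exact div_le_one_of_le₀ (htle x) (norm_nonneg _)
    exact abs_le.1 h1

end Pool.Agent.Lib.MP_a3bd00_gt
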