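import Pool.Agent.Lib.MP_a3bd00_gt.Fill

set_option autoImplicit false

namespace Pool.Agent.Lib.MP_a3bd00_gt

open Set MeasureTheory

/-- The projection of space to the plane. -/
noncomputable def J3_pr : Space →L[ℝ] Plane :=
  LinearMap.toContinuousLinearMap
    { toFun := fun z => !₂[z 0, z 1]
      map_add' := by intro x y; ext i; fin_cases i <;> simp
      map_smul' := by intro c x; ext i; fin_cases i <;> simp }

theorem J3_pr_apply (z : Space) : J3_pr z = !₂[z 0, z 1] := rfl

theorem J3_pr_zero (z : Space) : J3_pr z 0 = z 0 := rfl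
theorem J3_pr_one (z : Space) : J3_pr z 1 = z 1 := rfl

/-- The filling map. -/
noncomputable def J3_U (F G : Plane → Space) (z : Space) : Space :=
  mid F G (J3_pr z) + z 2 • half F G (J3_pr z)

/-- The domain of the filling map. -/
def J3_Q : Set Space := {z | J3_pr z ∈ square ∧ z 2 ∈ Icc (-1 : ℝ) 1}

theorem J3_fill (F G : Plane → Space) : fill F G = J3_U F G '' J3_Q := by
  ext x
  constructor
  · rintro ⟨p, hp, s, hs, rfl⟩
    have h1 : J3_pr !₂[p 0, p 1, s] = p := by
      rw [J3_pr_apply]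
      ext i
      fin_cases i <;> simp
    refine ⟨!₂[p 0, p 1, s], ⟨?_, ?_⟩, ?_⟩
    · rw [h1]; exact hp
    · simpa using hs
    · unfold J3_U
      rw [h1]
      simp
  · rintro ⟨z, ⟨hz, hz2⟩, rfl⟩
    exact ⟨J3_pr z, hz, z 2, hz2, rfl⟩

/-- The derivative of the filling map. -/
noncomputable def J3_D (F G : Plane → Space) (z : Space) : Space →L[ℝ] Space :=
  ((1 + z 2) / 2) • (fderiv ℝ F (J3_pr z)).comp J3_pr +
    ((1 - z 2) / 2) • (fderiv ℝ G (J3_pr z)).comp J3_pr +
    (EuclideanSpace.proj (𝕜 := ℝ) (2 : Fin 3)).smulRight (half F G (J3_pr z))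

theorem J3_D_apply (F G : Plane → Space) (z v : Space) :
    J3_D F G z v = slice F G (J3_pr z) (z 2) (J3_pr v) + v 2 • half F G (J3_pr z) := by
  simp [J3_D, slice]

theorem J3_hasFDerivAt {F G : Plane → Space} {z : Space} (dF : DifferentiableAt ℝ F (J3_pr z))
    (dG : DifferentiableAt ℝ G (J3_pr z)) : HasFDerivAt (J3_U F G) (J3_D F G z) z := by
  have h1 : HasFDerivAt (fun z => F (J3_pr z)) ((fderiv ℝ F (J3_pr z)).comp J3_pr) z :=
    dF.hasFDerivAt.comp z J3_pr.hasFDerivAt
  have h2 : HasFDerivAt (fun z => G (J3_pr z)) ((fderiv ℝ G (J3_pr z)).comp J3_pr) z :=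
    dG.hasFDerivAt.comp z J3_pr.hasFDerivAt
  have h3 : HasFDerivAt (fun z : Space => z 2) (EuclideanSpace.proj (𝕜 := ℝ) (2 : Fin 3)) z :=
    (EuclideanSpace.proj (𝕜 := ℝ) (2 : Fin 3)).hasFDerivAt
  have h4 := ((h1.add h2).const_smul (2 : ℝ)⁻¹).add (h3.smul ((h1.sub h2).const_smul (2 : ℝ)⁻¹))
  refine (h4.congr_fderiv ?_)
  ext v
  simp only [J3_D_apply, slice, half]
  simp
  ring

theorem J3_pr_basis0 : J3_pr (EuclideanSpace.single 0 1) = e 0 := by
  rw [J3_pr_apply]
  ext i
  fin_cases i <;> simp [e]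

theorem J3_pr_basis1 : J3_pr (EuclideanSpace.single 1 1) = e 1 := by
  rw [J3_pr_apply]
  ext i
  fin_cases i <;> simp [e]

theorem J3_pr_basis2 : J3_pr (EuclideanSpace.single 2 1) = 0 := by
  rw [J3_pr_apply]
  ext i
  fin_cases i <;> simp

theorem J3_slice_zero (F G : Plane → Space) (p : Plane) (s : ℝ) : slice F G p s 0 = 0 := by
  simp [slice]

theorem J3_det (F G : Plane → Space) (z : Space) :
    (J3_D F G z).det = triple (slice F G (J3_pr z) (z 2) (e 0)) (slice F G (J3_pr z) (z 2) (e 1))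
      (half F G (J3_pr z)) := by
  have h0 : J3_D F G z (EuclideanSpace.single 0 1) = slice F G (J3_pr z) (z 2) (e 0) := by
    rw [J3_D_apply, J3_pr_basis0]
    simp
  have h1 : J3_D F G z (EuclideanSpace.single 1 1) = slice F G (J3_pr z) (z 2) (e 1) := by
    rw [J3_D_apply, J3_pr_basis1]
    simp
  have h2 : J3_D F G z (EuclideanSpace.single 2 1) = half F G (J3_pr z) := by
    rw [J3_D_apply, J3_pr_basis2, J3_slice_zero]
    simp
  rw [ContinuousLinearMap.det, ← LinearMap.det_toMatrix (EuclideanSpace.basisFun (Fin 3) ℝ).toBasis,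
    Matrix.det_fin_three]
  simp only [LinearMap.toMatrix_apply, OrthonormalBasis.coe_toBasis,
    EuclideanSpace.basisFun_apply, OrthonormalBasis.coe_toBasis_repr_apply,
    EuclideanSpace.basisFun_repr, ContinuousLinearMap.coe_coe]
  rw [h0, h1, h2]
  unfold triple
  ring

theorem J3_norm_mid {F G : Plane → Space} (hF : LipschitzWith 1 F) (hG : LipschitzWith 1 G)
    (p q : Plane) : ‖mid F G p - mid F G q‖ ≤ ‖p - q‖ := by
  have h1 : ‖F p - F q‖ ≤ ‖p - q‖ := by
    have := hF.dist_le_mul p q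
    simpa [dist_eq_norm] using this
  have h2 : ‖G p - G q‖ ≤ ‖p - q‖ := by
    have := hG.dist_le_mul p q
    simpa [dist_eq_norm] using this
  have h3 : mid F G p - mid F G q = (2 : ℝ)⁻¹ • ((F p - F q) + (G p - G q)) := by
    unfold mid
    rw [← smul_sub]
    congr 1
    abel
  rw [h3, norm_smul, Real.norm_of_nonneg (by norm_num)]
  have h4 := norm_add_le (F p - F q) (G p - G q)
  linarith

theorem J3_norm_half {F G : Plane → Space} (hF : LipschitzWith 1 F) (hG : LipschitzWith 1 G)
    (p q : Plane) : ‖half F G p - half F G q‖ ≤ ‖p - q‖ := by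
  have h1 : ‖F p - F q‖ ≤ ‖p - q‖ := by
    have := hF.dist_le_mul p q
    simpa [dist_eq_norm] using this
  have h2 : ‖G p - G q‖ ≤ ‖p - q‖ := by
    have := hG.dist_le_mul p q
    simpa [dist_eq_norm] using this
  have h3 : half F G p - half F G q = (2 : ℝ)⁻¹ • ((F p - F q) - (G p - G q)) := by
    unfold half
    rw [← smul_sub]
    congr 1
    abel
  rw [h3, norm_smul, Real.norm_of_nonneg (by norm_num)]
  have h4 := norm_sub_le (F p - F q) (G p - G q)
  linarith

theorem J3_norm_square {p : Plane} (hp : p ∈ square) : ‖p‖ ≤ 2 := by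
  have h1 : ‖p‖ ^ 2 ≤ 2 ^ 2 := by
    rw [EuclideanSpace.norm_sq_eq, Fin.sum_univ_two]
    have h0 := hp 0
    have h1 := hp 1
    rw [Real.norm_of_nonneg h0.1, Real.norm_of_nonneg h1.1]
    nlinarith
  exact le_of_sq_le_sq h1 (by norm_num)

theorem J3_lip {F G : Plane → Space} (hF : LipschitzWith 1 F) (hG : LipschitzWith 1 G) :
    ∃ C : NNReal, LipschitzOnWith C (J3_U F G) J3_Q := by
  set M : ℝ := ‖half F G 0‖ + 2 with hM
  have hM0 : 0 ≤ M := by positivity
  set C : ℝ := 2 * ‖J3_pr‖ + M with hC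
  have hC0 : 0 ≤ C := by positivity
  refine ⟨⟨C, hC0⟩, LipschitzOnWith.of_dist_le_mul ?_⟩
  rintro x ⟨hx, hx2⟩ y ⟨hy, hy2⟩
  rw [dist_eq_norm, dist_eq_norm]
  show _ ≤ C * ‖x - y‖
  have e1 : J3_U F G x - J3_U F G y = (mid F G (J3_pr x) - mid F G (J3_pr y)) +
      (x 2 • (half F G (J3_pr x) - half F G (J3_pr y)) + (x 2 - y 2) • half F G (J3_pr y)) := by
    unfold J3_U
    rw [smul_sub, sub_smul]
    abel
  have e2 : ‖J3_pr x - J3_pr y‖ ≤ ‖J3_pr‖ * ‖x - y‖ := by
    rw [← map_sub]
    exact J3_pr.le_opNorm _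
  have e3 : |x 2 - y 2| ≤ ‖x - y‖ := by
    have := PiLp.norm_apply_le (x - y) 2
    simpa using this
  have e4 : ‖half F G (J3_pr y)‖ ≤ M := by
    have h1 := J3_norm_half hF hG (J3_pr y) 0
    rw [sub_zero] at h1
    have h2 := norm_sub_norm_le (half F G (J3_pr y)) (half F G 0)
    have h3 := J3_norm_square hy
    linarith
  have e5 : |x 2| ≤ 1 := abs_le.2 hx2
  have n0 := norm_nonneg (x - y)
  rw [e1]
  calc _ ≤ ‖mid F G (J3_pr x) - mid F G (J3_pr y)‖ +
        (‖x 2 • (half F G (J3_pr x) - half F G (J3_pr y))‖ + ‖(x 2 - y 2) • half F G (J3_pr y)‖) :=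
        (norm_add_le _ _).trans (add_le_add le_rfl (norm_add_le _ _))
    _ ≤ ‖J3_pr‖ * ‖x - y‖ + (1 * (‖J3_pr‖ * ‖x - y‖) + ‖x - y‖ * M) := by
        rw [norm_smul, norm_smul]
        refine add_le_add ((J3_norm_mid hF hG _ _).trans e2) (add_le_add ?_ ?_)
        · exact mul_le_mul e5 ((J3_norm_half hF hG _ _).trans e2) (norm_nonneg _) zero_le_one
        · exact mul_le_mul e3 e4 (norm_nonneg _) n0
    _ = C * ‖x - y‖ := by rw [hC]; ring

/-- Points over which both sheets are differentiable. -/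
def J3_good (F G : Plane → Space) : Set Plane :=
  {p | DifferentiableAt ℝ F p} ∩ {p | DifferentiableAt ℝ G p}

theorem J3_good_meas (F G : Plane → Space) : MeasurableSet (J3_good F G) :=
  (measurableSet_of_differentiableAt ℝ F).inter (measurableSet_of_differentiableAt ℝ G)

theorem J3_good_ae {F G : Plane → Space} (hF : LipschitzWith 1 F) (hG : LipschitzWith 1 G) :
    ∀ᵐ z : Space, J3_pr z ∈ J3_good F G := by
  have hs : Function.Surjective (J3_pr : Space →ₗ[ℝ] Plane) := by
    intro p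
    refine ⟨!₂[p 0, p 1, 0], ?_⟩
    show J3_pr !₂[p 0, p 1, 0] = p
    rw [J3_pr_apply]
    ext i
    fin_cases i <;> simp
  have h1 := ae_comp_linearMap_mem_iff (J3_pr : Space →ₗ[ℝ] Plane) (volume : Measure Space)
    (volume : Measure Plane) hs (J3_good_meas F G)
  refine h1.2 ?_
  filter_upwards [hF.ae_differentiableAt (μ := volume), hG.ae_differentiableAt (μ := volume)] with
    p h1 h2
  exact ⟨h1, h2⟩

theorem J3_null {f : Space → Space} {s : Set Space} {C : NNReal} (hf : LipschitzOnWith C f s)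
    (hs : volume s = 0) : volume (f '' s) = 0 := by
  have h1 : (Measure.hausdorffMeasure (Module.finrank ℝ Space) : Measure Space) ≪ volume :=
    Measure.absolutelyContinuous_isAddHaarMeasure _ _
  have h2 : (volume : Measure Space) ≪ Measure.hausdorffMeasure (Module.finrank ℝ Space) :=
    Measure.absolutelyContinuous_isAddHaarMeasure _ _
  refine h2 ?_
  have h3 := hf.hausdorffMeasure_image_le (d := (Module.finrank ℝ Space : ℝ)) (by positivity)
  rw [h1 hs, mul_zero] at h3
  exact le_antisymm h3 zero_le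

theorem J3_square_meas : MeasurableSet square := by
  have h1 : square = ⋂ i : Fin 2, {p : Plane | 0 ≤ p i ∧ p i ≤ 1} := by
    ext p
    simp [square]
  rw [h1]
  refine MeasurableSet.iInter fun i => ?_
  have h2 : Continuous fun p : Plane => p i := by fun_prop
  exact ((isClosed_le continuous_const h2).inter (isClosed_le h2 continuous_const)).measurableSet

/-- Coordinates. -/
noncomputable def J3_phi (z : Space) : Plane × ℝ := (J3_pr z, z 2)

theorem J3_phi_mp : MeasurePreserving J3_phi (volume : Measure Space) volume := by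
  have h1 := PiLp.volume_preserving_ofLp (Fin 3)
  have h2 := volume_preserving_piFinSuccAbove (fun _ : Fin 3 => ℝ) 2
  have h3 : MeasurePreserving (Prod.swap : ℝ × (Fin 2 → ℝ) → (Fin 2 → ℝ) × ℝ) volume volume :=
    Measure.measurePreserving_swap
  have h4 : MeasurePreserving (Prod.map (WithLp.toLp 2) id : (Fin 2 → ℝ) × ℝ → Plane × ℝ)
      volume volume :=
    (PiLp.volume_preserving_toLp (Fin 2)).prod (MeasurePreserving.id _)
  have h5 := h4.comp (h3.comp (h2.comp h1))
  have h6 : (Prod.map (WithLp.toLp 2) id : (Fin 2 → ℝ) × ℝ → Plane × ℝ) ∘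
      (Prod.swap : ℝ × (Fin 2 → ℝ) → (Fin 2 → ℝ) × ℝ) ∘
      (MeasurableEquiv.piFinSuccAbove (fun _ : Fin 3 => ℝ) 2) ∘ WithLp.ofLp = J3_phi := by
    funext z
    refine Prod.ext ?_ rfl
    ext i
    fin_cases i <;> rfl
  rw [h6] at h5
  exact h5

/-- The Jacobian as a function on the product. -/
noncomputable def J3_J (F G : Plane → Space) (q : Plane × ℝ) : ENNReal :=
  ENNReal.ofReal |triple (slice F G q.1 q.2 (e 0)) (slice F G q.1 q.2 (e 1)) (half F G q.1)|

theorem J3_J_meas {F G : Plane → Space} (hF : LipschitzWith 1 F) (hG : LipschitzWith 1 G) :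
    Measurable (J3_J F G) := by
  have h1 : ∀ v : Plane, Measurable fun q : Plane × ℝ => slice F G q.1 q.2 v := by
    intro v
    have a1 : Measurable fun q : Plane × ℝ => fderiv ℝ F q.1 v :=
      (measurable_fderiv_apply_const ℝ F v).comp measurable_fst
    have a2 : Measurable fun q : Plane × ℝ => fderiv ℝ G q.1 v :=
      (measurable_fderiv_apply_const ℝ G v).comp measurable_fst
    unfold slice
    exact ((((measurable_const.add measurable_snd).div_const 2)).smul a1).add
      (((measurable_const.sub measurable_snd).div_const 2).smul a2)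
  have h2 : Measurable fun q : Plane × ℝ => half F G q.1 := by
    have a1 : Continuous fun q : Plane × ℝ => half F G q.1 := by
      unfold half
      have := hF.continuous
      have := hG.continuous
      fun_prop
    exact a1.measurable
  have h3 : ∀ i : Fin 3, Measurable fun x : Space => x i := by
    intro i
    have : Continuous fun x : Space => x i := by fun_prop
    exact this.measurable
  have b0 : ∀ i : Fin 3, Measurable fun q : Plane × ℝ => slice F G q.1 q.2 (e 0) i :=
    fun i => (h3 i).comp (h1 _)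
  have b1 : ∀ i : Fin 3, Measurable fun q : Plane × ℝ => slice F G q.1 q.2 (e 1) i :=
    fun i => (h3 i).comp (h1 _)
  have b2 : ∀ i : Fin 3, Measurable fun q : Plane × ℝ => half F G q.1 i :=
    fun i => (h3 i).comp h2
  have c : Measurable fun q : Plane × ℝ =>
      triple (slice F G q.1 q.2 (e 0)) (slice F G q.1 q.2 (e 1)) (half F G q.1) :=
    (((b0 0).mul (((b1 1).mul (b2 2)).sub ((b1 2).mul (b2 1)))).sub
      ((b0 1).mul (((b1 0).mul (b2 2)).sub ((b1 2).mul (b2 0))))).add
      ((b0 2).mul (((b1 0).mul (b2 1)).sub ((b1 1).mul (b2 0))))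
  exact c.abs.ennreal_ofReal

/-- J3 -/
theorem volume_fill_le {F G : Plane → Space} (hF : LipschitzWith 1 F) (hG : LipschitzWith 1 G) :
    volume (fill F G) ≤ ∫⁻ p in square, jac F G p := by
  obtain ⟨C, hC⟩ := J3_lip hF hG
  have hQ : J3_Q = J3_phi ⁻¹' (square ×ˢ Icc (-1 : ℝ) 1) := rfl
  have hQm : MeasurableSet J3_Q := by
    rw [hQ]
    exact J3_phi_mp.measurable (J3_square_meas.prod measurableSet_Icc)
  have hg : MeasurableSet (J3_pr ⁻¹' J3_good F G) := J3_pr.continuous.measurable (J3_good_meas F G)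
  have hsplit : J3_Q = (J3_Q ∩ J3_pr ⁻¹' J3_good F G) ∪ (J3_Q \ J3_pr ⁻¹' J3_good F G) :=
    (Set.inter_union_sdiff _ _).symm
  have hnull : volume (J3_Q \ J3_pr ⁻¹' J3_good F G) = 0 := by
    refine measure_mono_null ?_ (J3_good_ae hF hG)
    rintro z ⟨-, hz⟩
    exact hz
  have h1 : volume (J3_U F G '' (J3_Q \ J3_pr ⁻¹' J3_good F G)) = 0 :=
    J3_null (hC.mono Set.sdiff_subset) hnull
  have h2 : volume (J3_U F G '' (J3_Q ∩ J3_pr ⁻¹' J3_good F G)) ≤
      ∫⁻ z in J3_Q ∩ J3_pr ⁻¹' J3_good F G, ENNReal.ofReal |(J3_D F G z).det| := by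
    refine addHaar_image_le_lintegral_abs_det_fderiv volume (hQm.inter hg) ?_
    rintro z ⟨-, hz⟩
    exact (J3_hasFDerivAt hz.1 hz.2).hasFDerivWithinAt
  have h3 : ∫⁻ z in J3_Q ∩ J3_pr ⁻¹' J3_good F G, ENNReal.ofReal |(J3_D F G z).det| ≤
      ∫⁻ z in J3_Q, J3_J F G (J3_phi z) := by
    refine (lintegral_mono_set Set.inter_subset_left).trans (le_of_eq ?_)
    refine lintegral_congr fun z => ?_
    rw [J3_det]
    rfl
  have h4 : ∫⁻ z in J3_Q, J3_J F G (J3_phi z) = ∫⁻ q in square ×ˢ Icc (-1 : ℝ) 1, J3_J F G q := by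
    rw [hQ]
    exact J3_phi_mp.setLIntegral_comp_preimage (J3_square_meas.prod measurableSet_Icc)
      (J3_J_meas hF hG)
  have h5 : ∫⁻ q in square ×ˢ Icc (-1 : ℝ) 1, J3_J F G q = ∫⁻ p in square, jac F G p := by
    have : (volume : Measure (Plane × ℝ)).restrict (square ×ˢ Icc (-1 : ℝ) 1) =
        ((volume : Measure Plane).restrict square).prod
          ((volume : Measure ℝ).restrict (Icc (-1 : ℝ) 1)) := by
      rw [Measure.prod_restrict]
      rfl
    rw [this, lintegral_prod _ (J3_J_meas hF hG).aemeasurable]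
    rfl
  rw [J3_fill, hsplit, Set.image_union]
  refine (measure_union_le _ _).trans ?_
  rw [h1, add_zero]
  exact h2.trans (h3.trans (h4.trans h5).le)

end Pool.Agent.Lib.MP_a3bd00_gt
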