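import Pool.Agent.Lib.MP_a3bd00_gt.Fill

set_option autoImplicit false

namespace Pool.Agent.Lib.MP_a3bd00_gt

open Set MeasureTheory

/-- The cross product. -/
noncomputable def J4_cr (a c : Space) : Space :=
  !₂[a 1 * c 2 - a 2 * c 1, a 2 * c 0 - a 0 * c 2, a 0 * c 1 - a 1 * c 0]

theorem J4_triple_eq (a b c : Space) : triple a b c = - Inner.inner ℝ b (J4_cr a c) := by
  simp only [triple, J4_cr, PiLp.inner_apply, Fin.sum_univ_three, RCLike.inner_apply, conj_trivial]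
  simp
  ring

theorem J4_norm_cr_sq (a c : Space) :
    ‖J4_cr a c‖ ^ 2 = ‖a‖ ^ 2 * ‖c‖ ^ 2 - (Inner.inner ℝ a c) ^ 2 := by
  rw [EuclideanSpace.norm_sq_eq, EuclideanSpace.norm_sq_eq, EuclideanSpace.norm_sq_eq]
  simp only [J4_cr, PiLp.inner_apply, Fin.sum_univ_three, RCLike.inner_apply, conj_trivial,
    Real.norm_eq_abs, sq_abs]
  simp
  ring

theorem J4_cr_comb (α β : ℝ) (a b c : Space) :
    J4_cr (α • a + β • b) c = α • J4_cr a c + β • J4_cr b c := by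
  ext i
  fin_cases i <;> simp [J4_cr] <;> ring

theorem J4_triple_rot (x y : ℝ) (h : x ^ 2 + y ^ 2 = 1) (a b c : Space) :
    triple (x • a + y • b) ((-y) • a + x • b) c = triple a b c := by
  have : triple (x • a + y • b) ((-y) • a + x • b) c = (x ^ 2 + y ^ 2) * triple a b c := by
    simp only [triple, PiLp.add_apply, PiLp.smul_apply, smul_eq_mul]
    ring
  rw [this, h, one_mul]

theorem J4_abs_triple_le (a b c : Space) (hb : ‖b‖ ≤ 1) : |triple a b c| ≤ ‖J4_cr a c‖ := by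
  rw [J4_triple_eq, abs_neg]
  calc |Inner.inner ℝ b (J4_cr a c)| ≤ ‖b‖ * ‖J4_cr a c‖ := abs_real_inner_le_norm _ _
    _ ≤ 1 * ‖J4_cr a c‖ := by gcongr
    _ = _ := one_mul _

theorem J4_cr_le (a c : Space) (ha : ‖a‖ ≤ 1) (k : ℝ) (hk : 0 ≤ k) :
    ‖J4_cr a c‖ ≤ ‖c‖ * √(1 + k ^ 2) - k * Inner.inner ℝ a c := by
  have hs0 : 0 ≤ √(1 + k ^ 2) := Real.sqrt_nonneg _
  have hs : √(1 + k ^ 2) ^ 2 = 1 + k ^ 2 := Real.sq_sqrt (by positivity)
  have hks : k ≤ √(1 + k ^ 2) := by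
    apply Real.le_sqrt_of_sq_le
    linarith
  have hc0 : 0 ≤ ‖c‖ := norm_nonneg _
  have hi : |Inner.inner ℝ a c| ≤ ‖c‖ := by
    calc |Inner.inner ℝ a c| ≤ ‖a‖ * ‖c‖ := abs_real_inner_le_norm _ _
      _ ≤ 1 * ‖c‖ := by gcongr
      _ = _ := one_mul _
  have hpos : 0 ≤ ‖c‖ * √(1 + k ^ 2) - k * Inner.inner ℝ a c := by
    have h1 : k * Inner.inner ℝ a c ≤ k * ‖c‖ :=
      mul_le_mul_of_nonneg_left (le_trans (le_abs_self _) hi) hk
    have h2 : k * ‖c‖ ≤ √(1 + k ^ 2) * ‖c‖ := mul_le_mul_of_nonneg_right hks hc0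
    linarith [mul_comm (√(1 + k ^ 2)) ‖c‖]
  apply le_of_sq_le_sq _ hpos
  rw [J4_norm_cr_sq]
  have ha2 : ‖a‖ ^ 2 ≤ 1 := by
    have := norm_nonneg a
    nlinarith
  have h3 : ‖a‖ ^ 2 * ‖c‖ ^ 2 ≤ ‖c‖ ^ 2 := by
    have : 0 ≤ ‖c‖ ^ 2 := by positivity
    nlinarith
  have h4 := sq_nonneg (‖c‖ * k - Inner.inner ℝ a c * √(1 + k ^ 2))
  nlinarith [h4, h3, hs]

theorem J4_dir (τ : Plane) : ∃ z : Plane, (z 0) ^ 2 + (z 1) ^ 2 = 1 ∧ τ = ‖τ‖ • z := by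
  by_cases h : τ = 0
  · refine ⟨e 0, ?_, ?_⟩
    · simp [e]
    · simp [h]
  · refine ⟨‖τ‖⁻¹ • τ, ?_, ?_⟩
    · have hn : ‖τ‖ ≠ 0 := norm_ne_zero_iff.mpr h
      have h2 : ‖τ‖ ^ 2 = (τ 0) ^ 2 + (τ 1) ^ 2 := by
        rw [EuclideanSpace.norm_sq_eq]
        simp [Fin.sum_univ_two]
      simp only [PiLp.smul_apply, smul_eq_mul]
      rw [mul_pow, mul_pow, ← mul_add, ← h2]
      field_simp
    · have hn : ‖τ‖ ≠ 0 := norm_ne_zero_iff.mpr h
      rw [smul_smul, mul_inv_cancel₀ hn, one_smul]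

theorem J4_exp (z : Plane) : z = z 0 • e 0 + z 1 • e 1 := by
  ext i
  fin_cases i <;> simp [e]

theorem J4_key (A B : Plane →L[ℝ] Space) (hA : ‖A‖ ≤ 1) (hB : ‖B‖ ≤ 1) (o : Space) (τ : Plane)
    {s : ℝ} (hs1 : -1 ≤ s) (hs2 : s ≤ 1) :
    |triple (((1 + s) / 2) • A (e 0) + ((1 - s) / 2) • B (e 0))
      (((1 + s) / 2) • A (e 1) + ((1 - s) / 2) • B (e 1)) o| ≤
      (1 + s) / 2 * (‖o‖ * √(1 + ‖τ‖ ^ 2) - Inner.inner ℝ (A τ) o) +
      (1 - s) / 2 * (‖o‖ * √(1 + ‖τ‖ ^ 2) + Inner.inner ℝ (B τ) o) := by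
  obtain ⟨z, hz, hτ⟩ := J4_dir τ
  have hp : 0 ≤ (1 + s) / 2 := by linarith
  have hq : 0 ≤ (1 - s) / 2 := by linarith
  set α := (1 + s) / 2 with hα
  set β := (1 - s) / 2 with hβ
  have hαβ : α + β = 1 := by rw [hα, hβ]; ring
  set U : Plane →L[ℝ] Space := α • A + β • B with hU
  have hUn : ‖U‖ ≤ 1 := by
    calc ‖U‖ ≤ ‖α • A‖ + ‖β • B‖ := norm_add_le _ _
      _ = α * ‖A‖ + β * ‖B‖ := by
        rw [norm_smul, norm_smul, Real.norm_of_nonneg hp, Real.norm_of_nonneg hq]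
      _ ≤ α * 1 + β * 1 := by gcongr
      _ = 1 := by rw [mul_one, mul_one, hαβ]
  have hnz : ‖z‖ = 1 := by
    have h2 : ‖z‖ ^ 2 = 1 := by
      rw [EuclideanSpace.norm_sq_eq]
      simpa [Fin.sum_univ_two] using hz
    have h0 := norm_nonneg z
    nlinarith
  let z' : Plane := (-(z 1)) • e 0 + (z 0) • e 1
  have hnz' : ‖z'‖ = 1 := by
    have h2 : ‖z'‖ ^ 2 = 1 := by
      rw [EuclideanSpace.norm_sq_eq]
      simp [Fin.sum_univ_two, z', e]
      linarith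
    have h0 := norm_nonneg z'
    nlinarith
  have hrot : triple (U (e 0)) (U (e 1)) o = triple (U z) (U z') o := by
    rw [show U z = z 0 • U (e 0) + z 1 • U (e 1) by
      conv_lhs => rw [J4_exp z]
      rw [map_add, map_smul, map_smul]]
    rw [show U z' = (-(z 1)) • U (e 0) + z 0 • U (e 1) by
      show U ((-(z 1)) • e 0 + (z 0) • e 1) = _
      rw [map_add, map_smul, map_smul]]
    rw [J4_triple_rot _ _ hz]
  have h1 : |triple (U (e 0)) (U (e 1)) o| ≤ ‖J4_cr (U z) o‖ := by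
    rw [hrot]
    apply J4_abs_triple_le
    calc ‖U z'‖ ≤ ‖U‖ * ‖z'‖ := U.le_opNorm _
      _ ≤ 1 * 1 := by rw [hnz']; gcongr
      _ = 1 := one_mul _
  have hAz : ‖A z‖ ≤ 1 := by
    calc ‖A z‖ ≤ ‖A‖ * ‖z‖ := A.le_opNorm _
      _ ≤ 1 * 1 := by rw [hnz]; gcongr
      _ = 1 := one_mul _
  have hBz : ‖-(B z)‖ ≤ 1 := by
    rw [norm_neg]
    calc ‖B z‖ ≤ ‖B‖ * ‖z‖ := B.le_opNorm _
      _ ≤ 1 * 1 := by rw [hnz]; gcongr
      _ = 1 := one_mul _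
  have h2 : ‖J4_cr (U z) o‖ ≤ α * ‖J4_cr (A z) o‖ + β * ‖J4_cr (-(B z)) o‖ := by
    have : J4_cr (U z) o = α • J4_cr (A z) o + (-β) • J4_cr (-(B z)) o := by
      rw [← J4_cr_comb]
      congr 1
      simp [hU]
    rw [this]
    calc _ ≤ ‖α • J4_cr (A z) o‖ + ‖(-β) • J4_cr (-(B z)) o‖ := norm_add_le _ _
      _ = _ := by rw [norm_smul, norm_smul, norm_neg, Real.norm_of_nonneg hp,
                    Real.norm_of_nonneg hq]
  have h3 := J4_cr_le (A z) o hAz ‖τ‖ (norm_nonneg _)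
  have h4 := J4_cr_le (-(B z)) o hBz ‖τ‖ (norm_nonneg _)
  have h5 : ‖τ‖ * Inner.inner ℝ (A z) o = Inner.inner ℝ (A τ) o := by
    conv_rhs => rw [hτ]
    rw [map_smul, real_inner_smul_left]
  have h6 : ‖τ‖ * Inner.inner ℝ (-(B z)) o = - Inner.inner ℝ (B τ) o := by
    conv_rhs => rw [hτ]
    rw [map_smul, real_inner_smul_left, inner_neg_left]
    ring
  rw [h5] at h3
  rw [h6] at h4
  have hUe : ∀ v, U v = α • A v + β • B v := fun v => by simp [hU]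
  rw [← hUe, ← hUe]
  calc _ ≤ ‖J4_cr (U z) o‖ := h1
    _ ≤ α * ‖J4_cr (A z) o‖ + β * ‖J4_cr (-(B z)) o‖ := h2
    _ ≤ α * (‖o‖ * √(1 + ‖τ‖ ^ 2) - Inner.inner ℝ (A τ) o) +
        β * (‖o‖ * √(1 + ‖τ‖ ^ 2) - - Inner.inner ℝ (B τ) o) := by gcongr
    _ = _ := by ring

/-- J4 -/
theorem jac_le {F G : Plane → Space} (hF : LipschitzWith 1 F) (hG : LipschitzWith 1 G) {p : Plane}
    (dF : DifferentiableAt ℝ F p) (dG : DifferentiableAt ℝ G p) (τ : Plane) :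
    0 ≤ 2 * ‖half F G p‖ * √(1 + ‖τ‖ ^ 2) - fderiv ℝ (fun q => ‖half F G q‖ ^ 2) p τ ∧
    jac F G p ≤ ENNReal.ofReal
      (2 * ‖half F G p‖ * √(1 + ‖τ‖ ^ 2) - fderiv ℝ (fun q => ‖half F G q‖ ^ 2) p τ) := by
  have hA : ‖fderiv ℝ F p‖ ≤ 1 := by
    simpa using norm_fderiv_le_of_lipschitz ℝ hF (x₀ := p)
  have hB : ‖fderiv ℝ G p‖ ≤ 1 := by
    simpa using norm_fderiv_le_of_lipschitz ℝ hG (x₀ := p)
  have hhalf : HasFDerivAt (half F G) ((2 : ℝ)⁻¹ • (fderiv ℝ F p - fderiv ℝ G p)) p :=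
    (dF.hasFDerivAt.sub dG.hasFDerivAt).const_smul (2 : ℝ)⁻¹
  have hD : fderiv ℝ (fun q => ‖half F G q‖ ^ 2) p τ =
      Inner.inner ℝ (fderiv ℝ F p τ) (half F G p) - Inner.inner ℝ (fderiv ℝ G p τ) (half F G p) := by
    rw [hhalf.norm_sq.fderiv]
    simp only [_root_.smul_apply, ContinuousLinearMap.comp_apply,
      _root_.sub_apply, innerSL_apply_apply, nsmul_eq_mul]
    rw [real_inner_smul_right, real_inner_comm, inner_sub_left]
    norm_num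
    ring
  have hkey : ∀ s : ℝ, -1 ≤ s → s ≤ 1 →
      |triple (slice F G p s (e 0)) (slice F G p s (e 1)) (half F G p)| ≤
      (1 + s) / 2 * (‖half F G p‖ * √(1 + ‖τ‖ ^ 2) - Inner.inner ℝ (fderiv ℝ F p τ) (half F G p)) +
      (1 - s) / 2 * (‖half F G p‖ * √(1 + ‖τ‖ ^ 2) + Inner.inner ℝ (fderiv ℝ G p τ) (half F G p)) :=
    fun s h1 h2 => J4_key _ _ hA hB (half F G p) τ h1 h2
  rw [hD]
  set P := ‖half F G p‖ * √(1 + ‖τ‖ ^ 2) - Inner.inner ℝ (fderiv ℝ F p τ) (half F G p) with hP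
  set Q := ‖half F G p‖ * √(1 + ‖τ‖ ^ 2) + Inner.inner ℝ (fderiv ℝ G p τ) (half F G p) with hQ
  have hPQ : 2 * ‖half F G p‖ * √(1 + ‖τ‖ ^ 2) -
      (Inner.inner ℝ (fderiv ℝ F p τ) (half F G p) - Inner.inner ℝ (fderiv ℝ G p τ) (half F G p)) = P + Q := by
    rw [hP, hQ]; ring
  rw [hPQ]
  have hP0 : 0 ≤ P := by
    have := (abs_nonneg _).trans (hkey 1 (by norm_num) le_rfl)
    norm_num at this
    exact this
  have hQ0 : 0 ≤ Q := by
    have := (abs_nonneg _).trans (hkey (-1) le_rfl (by norm_num))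
    norm_num at this
    exact this
  refine ⟨add_nonneg hP0 hQ0, ?_⟩
  have hint : IntegrableOn (fun s : ℝ => (1 + s) / 2 * P + (1 - s) / 2 * Q) (Icc (-1 : ℝ) 1) :=
    (by fun_prop : Continuous fun s : ℝ => (1 + s) / 2 * P + (1 - s) / 2 * Q).continuousOn.integrableOn_compact
      isCompact_Icc
  calc jac F G p ≤ ∫⁻ s in Icc (-1 : ℝ) 1,
        ENNReal.ofReal ((1 + s) / 2 * P + (1 - s) / 2 * Q) := by
        apply setLIntegral_mono_ae (by fun_prop)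
        filter_upwards with s hs
        exact ENNReal.ofReal_le_ofReal (hkey s hs.1 hs.2)
    _ = ENNReal.ofReal (∫ s in Icc (-1 : ℝ) 1, ((1 + s) / 2 * P + (1 - s) / 2 * Q)) := by
        rw [ofReal_integral_eq_lintegral_ofReal hint]
        rw [Filter.EventuallyLE, ae_restrict_iff' measurableSet_Icc]
        filter_upwards with s hs
        have h1 : 0 ≤ 1 + s := by linarith [hs.1]
        have h2 : 0 ≤ 1 - s := by linarith [hs.2]
        show 0 ≤ (1 + s) / 2 * P + (1 - s) / 2 * Q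
        positivity
    _ = ENNReal.ofReal (P + Q) := by
        congr 1
        rw [integral_Icc_eq_integral_Ioc, ← intervalIntegral.integral_of_le (by norm_num)]
        have : ∀ s : ℝ, (1 + s) / 2 * P + (1 - s) / 2 * Q = (P + Q) / 2 + s * ((P - Q) / 2) :=
          fun s => by ring
        simp_rw [this]
        rw [intervalIntegral.integral_add (by simp) (by
          apply Continuous.intervalIntegrable; fun_prop)]
        rw [intervalIntegral.integral_mul_const, integral_id]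
        simp
        ring

end Pool.Agent.Lib.MP_a3bd00_gt
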