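import Pool.Agent.Lib.MP_a3bd00_gt.Fill

set_option autoImplicit false

namespace Pool.Agent.Lib.MP_a3bd00_gt

open Set MeasureTheory

theorem J5_par_pos {x : ℝ} (h0 : 0 < x) (h1 : x < 1) : 0 < par x := by
  unfold par
  have : 0 < 1 - x := by linarith
  positivity

theorem J5_hasDerivAt_fld (y : ℝ) {x : ℝ} (hx : par x ≠ 0) :
    HasDerivAt (fun x => fld x y) (-(nfld x y)) x := by
  have hpar : HasDerivAt par (4 * (1 - 2 * x)) x := by
    have h1 : HasDerivAt (fun x : ℝ => 4 * x * (1 - x)) ((4 * 1) * (1 - x) + 4 * x * (0 - 1)) x :=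
      ((hasDerivAt_id x).const_mul 4).mul ((hasDerivAt_const x 1).sub (hasDerivAt_id x))
    convert! h1 using 1
    ring
  have hpa : ∀ P T : ℝ, HasDerivAt (fun P => pa P T) (paP P T) P := by
    intro P T
    have h1 : HasDerivAt (fun P : ℝ =>
        ((562 + 5074 * T + 4142 * T ^ 2 + 654 * T ^ 3) + (-432 + 2509 * T - 2025 * T ^ 2) * P +
        (-4088 + 3909 * T) * P ^ 2 + (-1512) * P ^ 3) / 10000)
        ((0 + (-432 + 2509 * T - 2025 * T ^ 2) * 1 +
        (-4088 + 3909 * T) * (((2 : ℕ) : ℝ) * P ^ (2 - 1)) + (-1512) * (((3 : ℕ) : ℝ) * P ^ (3 - 1)))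
          / 10000) P :=
      ((((hasDerivAt_const P _).add ((hasDerivAt_id P).const_mul _)).add
        ((hasDerivAt_pow 2 P).const_mul _)).add ((hasDerivAt_pow 3 P).const_mul _)).div_const _
    convert! h1 using 1
    · ext P
      unfold pa
      ring
    · unfold paP
      norm_num
      ring
  have h2 : HasDerivAt (fun x => pa (par x) (par y)) (paP (par x) (par y) * (4 * (1 - 2 * x))) x :=
    (hpa (par x) (par y)).comp x hpar
  have h3 : HasDerivAt (fun x : ℝ => 1 - 2 * x) (0 - 2 * 1) x :=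
    (hasDerivAt_const x 1).sub ((hasDerivAt_id x).const_mul 2)
  have h4 := (h2.mul h3).div hpar hx
  convert! h4 using 1
  unfold nfld
  have hsq : (1 - 2 * x) ^ 2 = 1 - par x := by unfold par; ring
  have hpq : 4 * x * (1 - x) = par x := rfl
  simp only [Pi.mul_apply]
  set p := pa (par x) (par y)
  set q := paP (par x) (par y)
  set P := par x
  field_simp
  have : (0 - 2 * 1 : ℝ) = -2 := by norm_num
  linear_combination (8 * p - 8 * q * P) * hsq

theorem J5_pa_le {P T : ℝ} (hP0 : 0 ≤ P) (hP1 : P ≤ 1) (hT0 : 0 ≤ T) (hT1 : T ≤ 1) :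
    |pa P T| ≤ 5 / 2 := by
  have hT2 : 0 ≤ T ^ 2 := by positivity
  have hT2' : T ^ 2 ≤ 1 := pow_le_one₀ hT0 hT1
  have hT3 : 0 ≤ T ^ 3 := by positivity
  have hT3' : T ^ 3 ≤ 1 := pow_le_one₀ hT0 hT1
  have hP2 : 0 ≤ P ^ 2 := by positivity
  have hP2' : P ^ 2 ≤ 1 := pow_le_one₀ hP0 hP1
  have hP3 : 0 ≤ P ^ 3 := by positivity
  have hP3' : P ^ 3 ≤ 1 := pow_le_one₀ hP0 hP1
  have hPT : 0 ≤ P * T := by positivity
  have hPT' : P * T ≤ 1 := mul_le_one₀ hP1 hT0 hT1
  have hPTT : 0 ≤ P * T ^ 2 := by positivity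
  have hPTT' : P * T ^ 2 ≤ 1 := mul_le_one₀ hP1 hT2 hT2'
  have hPPT : 0 ≤ P ^ 2 * T := by positivity
  have hPPT' : P ^ 2 * T ≤ 1 := mul_le_one₀ hP2' hT0 hT1
  rw [abs_le]
  unfold pa
  constructor <;> linarith

theorem J5_par_mem {x : ℝ} (h0 : 0 ≤ x) (h1 : x ≤ 1) : 0 ≤ par x ∧ par x ≤ 1 := by
  unfold par
  constructor
  · have : 0 ≤ 1 - x := by linarith
    positivity
  · nlinarith [sq_nonneg (2 * x - 1)]

theorem J5_fld_le {ε y : ℝ} (h0 : 0 < ε) (h1 : ε < 1 / 2) (hy0 : 0 ≤ y) (hy1 : y ≤ 1) :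
    |fld ε y| ≤ (5 / 2) / (2 * ε) := by
  have hε := J5_par_mem h0.le (by linarith : ε ≤ 1)
  have hy := J5_par_mem hy0 hy1
  have hp := J5_pa_le hε.1 hε.2 hy.1 hy.2
  have hpar : 2 * ε ≤ par ε := by unfold par; nlinarith
  have hpos : 0 < par ε := by linarith
  unfold fld
  rw [abs_div, abs_mul, abs_of_pos hpos, abs_of_nonneg (by linarith : 0 ≤ 1 - 2 * ε)]
  apply div_le_div₀ (by norm_num) _ (by linarith) hpar
  calc |pa (par ε) (par y)| * (1 - 2 * ε) ≤ 5 / 2 * 1 := by
        apply mul_le_mul hp (by linarith) (by linarith) (by norm_num)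
    _ = 5 / 2 := by norm_num

theorem J5_fld_symm (ε y : ℝ) : fld (1 - ε) y = - fld ε y := by
  unfold fld
  have : par (1 - ε) = par ε := by unfold par; ring
  rw [this]
  ring

/-- The one dimensional statement. -/
theorem J5_one {u D : ℝ → ℝ} {C : NNReal} {y ε : ℝ} (hy0 : 0 ≤ y) (hy1 : y ≤ 1) (h0 : 0 < ε)
    (h1 : ε < 1 / 2) (hL : LipschitzOnWith C u (Icc ε (1 - ε)))
    (hD : ∀ᵐ x, x ∈ Icc ε (1 - ε) → HasDerivAt u (D x) x) (hb : 0 ≤ u ε ∧ u ε ≤ ε ^ 2)
    (hb' : 0 ≤ u (1 - ε) ∧ u (1 - ε) ≤ ε ^ 2) :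
    ∫ x in Icc ε (1 - ε), (u x * nfld x y - D x * fld x y) ≤ 3 * ε := by
  have hle : ε ≤ 1 - ε := by linarith
  have hpar : ∀ x ∈ Icc ε (1 - ε), par x ≠ 0 := fun x hx =>
    (J5_par_pos (by linarith [hx.1]) (by linarith [hx.2])).ne'
  have hu : AbsolutelyContinuousOnInterval u ε (1 - ε) := by
    apply LipschitzOnWith.absolutelyContinuousOnInterval (K := C)
    rwa [uIcc_of_le hle]
  have hf : AbsolutelyContinuousOnInterval (fun x => fld x y) ε (1 - ε) := by
    apply ContDiffOn.absolutelyContinuousOnInterval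
    rw [uIcc_of_le hle]
    unfold fld
    apply ContDiffOn.div
    · unfold pa par
      fun_prop
    · unfold par
      fun_prop
    · exact hpar
  have hI := AbsolutelyContinuousOnInterval.integral_deriv_mul_eq_sub hu hf
  have hcong : ∫ x in ε..(1 - ε), (u x * nfld x y - D x * fld x y) =
      - ∫ x in ε..(1 - ε), (deriv u x * fld x y + u x * deriv (fun x => fld x y) x) := by
    rw [← intervalIntegral.integral_neg]
    apply intervalIntegral.integral_congr_ae
    filter_upwards [hD] with x hx hmem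
    rw [uIoc_of_le hle] at hmem
    have hmem' : x ∈ Icc ε (1 - ε) := Ioc_subset_Icc_self hmem
    rw [(hx hmem').deriv, (J5_hasDerivAt_fld y (hpar x hmem')).deriv]
    ring
  rw [integral_Icc_eq_integral_Ioc, ← intervalIntegral.integral_of_le hle, hcong, hI]
  rw [J5_fld_symm]
  have hfl := J5_fld_le h0 h1 hy0 hy1
  have h2 : |u ε * fld ε y| ≤ ε ^ 2 * ((5 / 2) / (2 * ε)) := by
    rw [abs_mul, abs_of_nonneg hb.1]
    exact mul_le_mul hb.2 hfl (abs_nonneg _) (by positivity)
  have h3 : |u (1 - ε) * fld ε y| ≤ ε ^ 2 * ((5 / 2) / (2 * ε)) := by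
    rw [abs_mul, abs_of_nonneg hb'.1]
    exact mul_le_mul hb'.2 hfl (abs_nonneg _) (by positivity)
  have h4 : ε ^ 2 * ((5 / 2) / (2 * ε)) = 5 / 4 * ε := by
    field_simp
    ring
  rw [h4] at h2 h3
  have h5 := (abs_le.mp h2).2
  have h6 := (abs_le.mp h3).2
  linarith

/-- The plane as a product, first coordinate first. -/
noncomputable def J5_phi (z : ℝ × ℝ) : Plane := !₂[z.1, z.2]

/-- The plane as a product, second coordinate first. -/
noncomputable def J5_psi (z : ℝ × ℝ) : Plane := !₂[z.2, z.1]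

theorem J5_phi_eq : J5_phi =
    (MeasurableEquiv.finTwoArrow.symm.trans (MeasurableEquiv.toLp 2 (Fin 2 → ℝ)) :
      ℝ × ℝ → EuclideanSpace ℝ (Fin 2)) := by
  funext z
  ext i
  fin_cases i <;> rfl

theorem J5_phi_mp : MeasurePreserving J5_phi volume volume := by
  rw [J5_phi_eq]
  exact ((volume_preserving_finTwoArrow ℝ).symm _).trans
    (EuclideanSpace.volume_preserving_symm_measurableEquiv_toLp (Fin 2)).symm

theorem J5_phi_emb : MeasurableEmbedding J5_phi := by
  rw [J5_phi_eq]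
  exact MeasurableEquiv.measurableEmbedding _

theorem J5_psi_eq : J5_psi = J5_phi ∘ Prod.swap := rfl

theorem J5_psi_mp : MeasurePreserving J5_psi volume volume := by
  rw [J5_psi_eq]
  exact J5_phi_mp.comp Measure.measurePreserving_swap

theorem J5_psi_emb : MeasurableEmbedding J5_psi := by
  rw [J5_psi_eq]
  exact J5_phi_emb.comp MeasurableEquiv.prodComm.measurableEmbedding

theorem J5_phi_pre (ε : ℝ) : J5_phi ⁻¹' inner ε = Icc ε (1 - ε) ×ˢ Icc ε (1 - ε) := by
  ext z
  simp [J5_phi, inner, Fin.forall_fin_two, -Icc_prod_Icc]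

theorem J5_psi_pre (ε : ℝ) : J5_psi ⁻¹' inner ε = Icc ε (1 - ε) ×ˢ Icc ε (1 - ε) := by
  ext z
  simp [J5_psi, inner, Fin.forall_fin_two, -Icc_prod_Icc]
  tauto

theorem J5_inner_meas (ε : ℝ) : MeasurableSet (inner ε) := by
  have : inner ε = ⋂ i : Fin 2, {p : Plane | ε ≤ p i ∧ p i ≤ 1 - ε} := by
    ext p; simp [inner]
  rw [this]
  apply MeasurableSet.iInter
  intro i
  apply IsClosed.measurableSet
  apply IsClosed.inter
  · exact isClosed_le (f := fun _ => ε) (g := fun p : Plane => p i) (by fun_prop) (by fun_prop)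
  · exact isClosed_le (f := fun p : Plane => p i) (g := fun _ => 1 - ε) (by fun_prop) (by fun_prop)

theorem J5_inner_compact (ε : ℝ) : IsCompact (inner ε) := by
  have h1 : inner ε = J5_phi '' (Icc ε (1 - ε) ×ˢ Icc ε (1 - ε)) := by
    rw [← J5_phi_pre, image_preimage_eq_of_subset]
    intro p _
    refine ⟨(p 0, p 1), ?_⟩
    ext i
    fin_cases i <;> rfl
  rw [h1]
  apply (isCompact_Icc.prod isCompact_Icc).image
  unfold J5_phi
  fun_prop

theorem J5_inner_sub {ε : ℝ} (h0 : 0 < ε) : inner ε ⊆ square := fun p hp i =>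
  ⟨h0.le.trans (hp i).1, by linarith [(hp i).2]⟩

theorem J5_square_nhds {ε : ℝ} (h0 : 0 < ε) {p : Plane} (hp : p ∈ inner ε) :
    square ∈ nhds p := by
  have h1 : (⋂ i : Fin 2, {q : Plane | 0 < q i ∧ q i < 1}) ∈ nhds p := by
    rw [Filter.iInter_mem]
    intro i
    apply IsOpen.mem_nhds
    · apply IsOpen.inter
      · exact isOpen_lt (f := fun _ => 0) (g := fun p : Plane => p i) (by fun_prop) (by fun_prop)
      · exact isOpen_lt (f := fun p : Plane => p i) (g := fun _ => 1) (by fun_prop) (by fun_prop)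
    · exact ⟨by linarith [(hp i).1], by linarith [(hp i).2]⟩
  apply Filter.mem_of_superset h1
  intro q hq i
  have := mem_iInter.mp hq i
  exact ⟨this.1.le, this.2.le⟩

/-- Continuity of the two components on the inner square. -/
theorem J5_cont_fld {ε : ℝ} (h0 : 0 < ε) (i j : Fin 2) :
    ContinuousOn (fun p : Plane => fld (p i) (p j)) (inner ε) := by
  have hpar : ∀ p ∈ inner ε, par (p i) ≠ 0 := fun p hp =>
    (J5_par_pos (by linarith [(hp i).1]) (by linarith [(hp i).2])).ne'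
  unfold fld
  apply ContinuousOn.div _ _ hpar
  · unfold pa par
    fun_prop
  · unfold par
    fun_prop

theorem J5_cont_nfld {ε : ℝ} (h0 : 0 < ε) (i j : Fin 2) :
    ContinuousOn (fun p : Plane => nfld (p i) (p j)) (inner ε) := by
  have hpar : ∀ p ∈ inner ε, par (p i) ≠ 0 := fun p hp =>
    (J5_par_pos (by linarith [(hp i).1]) (by linarith [(hp i).2])).ne'
  unfold nfld
  apply ContinuousOn.mul
  · apply ContinuousOn.div (by fun_prop)
    · unfold par
      fun_prop
    · exact fun p hp => pow_ne_zero 2 (hpar p hp)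
  · unfold pa paP par
    fun_prop

theorem J5_int {w : Plane → ℝ} {C : NNReal} (hw : LipschitzOnWith C w square) {ε : ℝ}
    (h0 : 0 < ε) (i j : Fin 2) :
    IntegrableOn (fun p => w p * nfld (p i) (p j) - fderiv ℝ w p (e i) * fld (p i) (p j))
      (inner ε) := by
  apply Integrable.sub
  · have : ContinuousOn (fun p => w p * nfld (p i) (p j)) (inner ε) :=
      (hw.continuousOn.mono (J5_inner_sub h0)).mul (J5_cont_nfld h0 i j)
    exact this.integrableOn_compact (J5_inner_compact ε)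
  · apply Integrable.bdd_mul (c := C)
    · exact (J5_cont_fld h0 i j).integrableOn_compact (J5_inner_compact ε)
    · apply Measurable.aestronglyMeasurable
      exact measurable_fderiv_apply_const ℝ w (e i)
    · rw [ae_restrict_iff' (J5_inner_meas ε)]
      filter_upwards with p hp
      have h1 : ‖fderiv ℝ w p‖ ≤ C := norm_fderiv_le_of_lipschitzOn ℝ (J5_square_nhds h0 hp) hw
      calc ‖fderiv ℝ w p (e i)‖ ≤ ‖fderiv ℝ w p‖ * ‖e i‖ := (fderiv ℝ w p).le_opNorm _
        _ ≤ C * 1 := by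
          have : ‖e i‖ = 1 := by simp [e]
          rw [this]
          gcongr
        _ = C := mul_one _

/-- One direction. -/
theorem J5_dir {w : Plane → ℝ} {C : NNReal} (hw : LipschitzOnWith C w square)
    (hb : ∀ p ∈ square, ∀ i, 0 ≤ w p ∧ w p ≤ (p i) ^ 2 ∧ w p ≤ (1 - p i) ^ 2)
    (hd : ∀ᵐ p, p ∈ square → DifferentiableAt ℝ w p) {ε : ℝ} (h0 : 0 < ε) (h1 : ε < 1 / 2)
    {φ : ℝ × ℝ → Plane} (hφ : MeasurePreserving φ volume volume) (he : MeasurableEmbedding φ)
    (hpre : φ ⁻¹' inner ε = Icc ε (1 - ε) ×ˢ Icc ε (1 - ε)) (i j : Fin 2)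
    (hi : ∀ a t, φ (a, t) i = t) (hj : ∀ a t, φ (a, t) j = a)
    (hder : ∀ a t, HasDerivAt (fun t => φ (a, t)) (e i) t)
    (hlip : ∀ a, LipschitzWith 1 (fun t => φ (a, t))) :
    ∫ p in inner ε, (w p * nfld (p i) (p j) - fderiv ℝ w p (e i) * fld (p i) (p j)) ≤ 3 * ε := by
  have hle : ε ≤ 1 - ε := by linarith
  set f : Plane → ℝ := fun p =>
    w p * nfld (p i) (p j) - fderiv ℝ w p (e i) * fld (p i) (p j) with hf
  have hint : IntegrableOn f (inner ε) := J5_int hw h0 i j
  have hint2 : IntegrableOn (f ∘ φ) (Icc ε (1 - ε) ×ˢ Icc ε (1 - ε)) := by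
    rw [← hpre]
    exact (hφ.integrableOn_comp_preimage he).mpr hint
  rw [← hφ.setIntegral_preimage_emb he, hpre]
  have hint3 : IntegrableOn (fun z => f (φ z)) (Icc ε (1 - ε) ×ˢ Icc ε (1 - ε))
      ((volume : Measure ℝ).prod (volume : Measure ℝ)) := hint2
  have hfub := setIntegral_prod (μ := (volume : Measure ℝ)) (ν := (volume : Measure ℝ))
    (fun z => f (φ z)) hint3
  rw [Measure.volume_eq_prod, hfub]
  have hae : ∀ᵐ a : ℝ, ∀ᵐ t : ℝ, φ (a, t) ∈ square → DifferentiableAt ℝ w (φ (a, t)) := by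
    have h2 : ∀ᵐ z : ℝ × ℝ, φ z ∈ square → DifferentiableAt ℝ w (φ z) :=
      hφ.quasiMeasurePreserving.ae hd
    rw [Measure.volume_eq_prod] at h2
    exact Measure.ae_ae_of_ae_prod h2
  have hmem : ∀ a ∈ Icc ε (1 - ε), ∀ t ∈ Icc ε (1 - ε), φ (a, t) ∈ inner ε := by
    intro a ha t ht
    have : (a, t) ∈ φ ⁻¹' inner ε := by rw [hpre]; exact ⟨ha, ht⟩
    exact this
  calc ∫ a in Icc ε (1 - ε), ∫ t in Icc ε (1 - ε), f (φ (a, t))
      ≤ ∫ a in Icc ε (1 - ε), (3 * ε) := by
        apply setIntegral_mono_ae_restrict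
        · have h3 : Integrable (fun z => f (φ z))
              ((volume.restrict (Icc ε (1 - ε))).prod (volume.restrict (Icc ε (1 - ε)))) := by
            rw [Measure.prod_restrict]
            exact hint3
          exact h3.integral_prod_left
        · exact continuous_const.integrableOn_Icc
        · rw [Filter.EventuallyLE, ae_restrict_iff' measurableSet_Icc]
          filter_upwards [hae] with a ha hmem_a
          have hlipa : LipschitzOnWith C (fun t => w (φ (a, t))) (Icc ε (1 - ε)) := by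
            have h4 : LipschitzOnWith (C * 1) (w ∘ fun t => φ (a, t)) (Icc ε (1 - ε)) :=
              hw.comp (hlip a).lipschitzOnWith
                (fun t ht => J5_inner_sub h0 (hmem a hmem_a t ht))
            rw [mul_one] at h4
            exact h4
          have hDa : ∀ᵐ t, t ∈ Icc ε (1 - ε) → HasDerivAt (fun t => w (φ (a, t)))
              (fderiv ℝ w (φ (a, t)) (e i)) t := by
            filter_upwards [ha] with t ht hmem_t
            have h5 := ht (J5_inner_sub h0 (hmem a hmem_a t hmem_t))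
            exact h5.hasFDerivAt.comp_hasDerivAt t (hder a t)
          have hεm : ε ∈ Icc ε (1 - ε) := ⟨le_rfl, hle⟩
          have hεm' : 1 - ε ∈ Icc ε (1 - ε) := ⟨hle, le_rfl⟩
          have hb1 := hb _ (J5_inner_sub h0 (hmem a hmem_a ε hεm)) i
          have hb2 := hb _ (J5_inner_sub h0 (hmem a hmem_a (1 - ε) hεm')) i
          rw [hi] at hb1 hb2
          have h6 := J5_one (u := fun t => w (φ (a, t)))
            (D := fun t => fderiv ℝ w (φ (a, t)) (e i)) (y := a)
            (by linarith [hmem_a.1]) (by linarith [hmem_a.2]) h0 h1 hlipa hDa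
            ⟨hb1.1, hb1.2.1⟩ ⟨hb2.1, by simpa using hb2.2.2⟩
          have h7 : (fun t => f (φ (a, t))) = fun t => w (φ (a, t)) * nfld t a -
              fderiv ℝ w (φ (a, t)) (e i) * fld t a := by
            funext t
            rw [hf]
            simp only [hi, hj]
          show ∫ t in Icc ε (1 - ε), f (φ (a, t)) ≤ 3 * ε
          rw [h7]
          exact h6
    _ ≤ 3 * ε := by
        rw [setIntegral_const]
        simp only [Real.volume_real_Icc_of_le hle, smul_eq_mul]
        nlinarith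

theorem J5_field (w : Plane → ℝ) (p : Plane) :
    w p * negdiv p - fderiv ℝ w p (field p) =
      (w p * nfld (p 0) (p 1) - fderiv ℝ w p (e 0) * fld (p 0) (p 1)) +
      (w p * nfld (p 1) (p 0) - fderiv ℝ w p (e 1) * fld (p 1) (p 0)) := by
  have h : field p = fld (p 0) (p 1) • e 0 + fld (p 1) (p 0) • e 1 := by
    ext i
    fin_cases i <;> simp [field, e]
  rw [h, map_add, map_smul, map_smul, negdiv, smul_eq_mul, smul_eq_mul]
  ring

/-- J5 -/
theorem integral_inner_le {w : Plane → ℝ} {C : NNReal} (hw : LipschitzOnWith C w square)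
    (hb : ∀ p ∈ square, ∀ i, 0 ≤ w p ∧ w p ≤ (p i) ^ 2 ∧ w p ≤ (1 - p i) ^ 2)
    (hd : ∀ᵐ p, p ∈ square → DifferentiableAt ℝ w p) {ε : ℝ} (h0 : 0 < ε) (h1 : ε < 1 / 2) :
    IntegrableOn (fun p => w p * negdiv p - fderiv ℝ w p (field p)) (inner ε) ∧
    ∫ p in inner ε, (w p * negdiv p - fderiv ℝ w p (field p)) ≤ 8 * ε := by
  simp_rw [J5_field]
  have hi0 := J5_int hw h0 0 1
  have hi1 := J5_int hw h0 1 0
  refine ⟨hi0.add hi1, ?_⟩
  rw [integral_add hi0 hi1]
  have hA := J5_dir hw hb hd h0 h1 J5_phi_mp J5_phi_emb (J5_phi_pre ε) 1 0 (fun a t => rfl)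
    (fun a t => rfl) (fun a t => by
      have h : (fun t => J5_phi (a, t)) = fun t => a • e 0 + t • e 1 := by
        funext t
        ext i
        fin_cases i <;> simp [J5_phi, e]
      rw [h]
      simpa using ((hasDerivAt_id t).smul_const (e 1)).const_add (a • e 0)) (fun a => by
      apply LipschitzWith.of_dist_le_mul
      intro x y
      rw [EuclideanSpace.dist_eq]
      simp [J5_phi, Fin.sum_univ_two, Real.dist_eq, Real.sqrt_sq_eq_abs])
  have hB := J5_dir hw hb hd h0 h1 J5_psi_mp J5_psi_emb (J5_psi_pre ε) 0 1 (fun a t => rfl)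
    (fun a t => rfl) (fun a t => by
      have h : (fun t => J5_psi (a, t)) = fun t => a • e 1 + t • e 0 := by
        funext t
        ext i
        fin_cases i <;> simp [J5_psi, e]
      rw [h]
      simpa using ((hasDerivAt_id t).smul_const (e 0)).const_add (a • e 1)) (fun a => by
      apply LipschitzWith.of_dist_le_mul
      intro x y
      rw [EuclideanSpace.dist_eq]
      simp [J5_psi, Fin.sum_univ_two, Real.dist_eq, Real.sqrt_sq_eq_abs])
  linarith

end Pool.Agent.Lib.MP_a3bd00_gt
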