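import Pool.Agent.Lib.MP_a3bd00_gt.Fill

/-!
# The certificate
-/

set_option autoImplicit false

namespace Pool.Agent.Lib.MP_a3bd00_gt

open Set MeasureTheory

/-- Numerator of minus the divergence. -/
noncomputable def J6_D (P T : ℝ) : ℝ :=
  (pa P T * (1 - P / 2) - P * (1 - P) * paP P T) * T ^ 2 +
    (pa T P * (1 - T / 2) - T * (1 - T) * paP T P) * P ^ 2

/-- Numerator of `1 + ‖field‖ ^ 2`. -/
noncomputable def J6_N (P T : ℝ) : ℝ :=
  P ^ 2 * T ^ 2 + pa P T ^ 2 * (1 - P) * T ^ 2 + pa T P ^ 2 * (1 - T) * P ^ 2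

/-- The polynomial to be shown nonnegative. -/
noncomputable def J6_F (P T : ℝ) : ℝ := pm P T * J6_D P T - J6_N P T

theorem J6_F_symm (P T : ℝ) : J6_F P T = J6_F T P := by
  simp only [J6_F, J6_D, J6_N, pm]
  ring

theorem J6_box00 {s s' t t' : ℝ} (h1 : s + s' = 1) (h2 : t + t' = 1) (hs : 0 ≤ s) (hs' : 0 ≤ s')
    (ht : 0 ≤ t) (ht' : 0 ≤ t') : 0 ≤ J6_F (s / 2) (t / 2) := by
  have key : J6_F (s / 2) (t / 2) =
      (t ^ 0 * t' ^ 8 * (11365888 * s ^ 2 * s' ^ 6 +
          90980992 * s ^ 3 * s' ^ 5 +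
          199800128 * s ^ 4 * s' ^ 4 +
          164654560 * s ^ 5 * s' ^ 3 +
          46533808 * s ^ 6 * s' ^ 2 +
          4133984 * s ^ 7 * s' ^ 1 +
          1214280 * s ^ 8 * s' ^ 0) +
        t ^ 1 * t' ^ 7 * (283248000 * s ^ 2 * s' ^ 6 +
          2554999456 * s ^ 3 * s' ^ 5 +
          7372866608 * s ^ 4 * s' ^ 4 +
          9883988408 * s ^ 5 * s' ^ 3 +
          6888075708 * s ^ 6 * s' ^ 2 +
          2493037032 * s ^ 7 * s' ^ 1 +
          381418840 * s ^ 8 * s' ^ 0) +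
        t ^ 2 * t' ^ 6 * (11365888 * s ^ 0 * s' ^ 8 +
          283248000 * s ^ 1 * s' ^ 7 +
          676846784 * s ^ 2 * s' ^ 6 +
          5349425808 * s ^ 3 * s' ^ 5 +
          20322808076 * s ^ 4 * s' ^ 4 +
          32484801250 * s ^ 5 * s' ^ 3 +
          25284342256 * s ^ 6 * s' ^ 2 +
          9706452390 * s ^ 7 * s' ^ 1 +
          1507606360 * s ^ 8 * s' ^ 0) +
        t ^ 3 * t' ^ 5 * (90980992 * s ^ 0 * s' ^ 8 +
          2554999456 * s ^ 1 * s' ^ 7 +
          5349425808 * s ^ 2 * s' ^ 6 +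
          5356640984 * s ^ 3 * s' ^ 5 +
          16855529710 * s ^ 4 * s' ^ 4 +
          36160658440 * s ^ 5 * s' ^ 3 +
          33612351961 * s ^ 6 * s' ^ 2 +
          14165254410 * s ^ 7 * s' ^ 1 +
          2290342663 * s ^ 8 * s' ^ 0) +
        t ^ 4 * t' ^ 4 * (199800128 * s ^ 0 * s' ^ 8 +
          7372866608 * s ^ 1 * s' ^ 7 +
          20322808076 * s ^ 2 * s' ^ 6 +
          16855529710 * s ^ 3 * s' ^ 5 +
          5885414888 * s ^ 4 * s' ^ 4 +
          12754007965 * s ^ 5 * s' ^ 3 +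
          18302344326 * s ^ 6 * s' ^ 2 +
          9444474443 * s ^ 7 * s' ^ 1 +
          1671601128 * s ^ 8 * s' ^ 0) +
        t ^ 5 * t' ^ 3 * (164654560 * s ^ 0 * s' ^ 8 +
          9883988408 * s ^ 1 * s' ^ 7 +
          32484801250 * s ^ 2 * s' ^ 6 +
          36160658440 * s ^ 3 * s' ^ 5 +
          12754007965 * s ^ 4 * s' ^ 4 +
          145920328 * s ^ 5 * s' ^ 3 +
          3065814058 * s ^ 6 * s' ^ 2 +
          2959986244 * s ^ 7 * s' ^ 1 +
          648341455 * s ^ 8 * s' ^ 0) +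
        t ^ 6 * t' ^ 2 * (46533808 * s ^ 0 * s' ^ 8 +
          6888075708 * s ^ 1 * s' ^ 7 +
          25284342256 * s ^ 2 * s' ^ 6 +
          33612351961 * s ^ 3 * s' ^ 5 +
          18302344326 * s ^ 4 * s' ^ 4 +
          3065814058 * s ^ 5 * s' ^ 3 +
          414160464 * s ^ 6 * s' ^ 2 +
          690135885 * s ^ 7 * s' ^ 1 +
          194026698 * s ^ 8 * s' ^ 0) +
        t ^ 7 * t' ^ 1 * (4133984 * s ^ 0 * s' ^ 8 +
          2493037032 * s ^ 1 * s' ^ 7 +
          9706452390 * s ^ 2 * s' ^ 6 +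
          14165254410 * s ^ 3 * s' ^ 5 +
          9444474443 * s ^ 4 * s' ^ 4 +
          2959986244 * s ^ 5 * s' ^ 3 +
          690135885 * s ^ 6 * s' ^ 2 +
          298666164 * s ^ 7 * s' ^ 1 +
          67897704 * s ^ 8 * s' ^ 0) +
        t ^ 8 * t' ^ 0 * (1214280 * s ^ 0 * s' ^ 8 +
          381418840 * s ^ 1 * s' ^ 7 +
          1507606360 * s ^ 2 * s' ^ 6 +
          2290342663 * s ^ 3 * s' ^ 5 +
          1671601128 * s ^ 4 * s' ^ 4 +
          648341455 * s ^ 5 * s' ^ 3 +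
          194026698 * s ^ 6 * s' ^ 2 +
          67897704 * s ^ 7 * s' ^ 1 +
          13124480 * s ^ 8 * s' ^ 0)) / 51200000000 := by
    obtain rfl : s' = 1 - s := by linarith
    obtain rfl : t' = 1 - t := by linarith
    simp only [J6_F, J6_D, J6_N, pm, pa, paP]
    ring
  rw [key]
  positivity

theorem J6_box01 {s s' t t' : ℝ} (h1 : s + s' = 1) (h2 : t + t' = 1) (hs : 0 ≤ s) (hs' : 0 ≤ s')
    (ht : 0 ≤ t) (ht' : 0 ≤ t') : 0 ≤ J6_F (s / 2) ((1 + t) / 2) := by
  have key : J6_F (s / 2) ((1 + t) / 2) =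
      (t ^ 0 * t' ^ 8 * (1214280 * s ^ 0 * s' ^ 8 +
          381418840 * s ^ 1 * s' ^ 7 +
          1507606360 * s ^ 2 * s' ^ 6 +
          2290342663 * s ^ 3 * s' ^ 5 +
          1671601128 * s ^ 4 * s' ^ 4 +
          648341455 * s ^ 5 * s' ^ 3 +
          194026698 * s ^ 6 * s' ^ 2 +
          67897704 * s ^ 7 * s' ^ 1 +
          13124480 * s ^ 8 * s' ^ 0) +
        t ^ 1 * t' ^ 7 * (15294496 * s ^ 0 * s' ^ 8 +
          3609664408 * s ^ 1 * s' ^ 7 +
          14415249370 * s ^ 2 * s' ^ 6 +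
          22480228198 * s ^ 3 * s' ^ 5 +
          17301143605 * s ^ 4 * s' ^ 4 +
          7413477036 * s ^ 5 * s' ^ 3 +
          2414291283 * s ^ 6 * s' ^ 2 +
          787697100 * s ^ 7 * s' ^ 1 +
          142093976 * s ^ 8 * s' ^ 0) +
        t ^ 2 * t' ^ 6 * (124657392 * s ^ 0 * s' ^ 8 +
          14704467340 * s ^ 1 * s' ^ 7 +
          58245921116 * s ^ 2 * s' ^ 6 +
          91817168477 * s ^ 3 * s' ^ 5 +
          73299028460 * s ^ 4 * s' ^ 4 +
          34240249602 * s ^ 5 * s' ^ 3 +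
          12483248250 * s ^ 6 * s' ^ 2 +
          4113352437 * s ^ 7 * s' ^ 1 +
          713400602 * s ^ 8 * s' ^ 0) +
        t ^ 3 * t' ^ 5 * (590493920 * s ^ 0 * s' ^ 8 +
          34233449720 * s ^ 1 * s' ^ 7 +
          130992954342 * s ^ 2 * s' ^ 6 +
          203379707676 * s ^ 3 * s' ^ 5 +
          162415576079 * s ^ 4 * s' ^ 4 +
          78461975712 * s ^ 5 * s' ^ 3 +
          30856657874 * s ^ 6 * s' ^ 2 +
          10651857992 * s ^ 7 * s' ^ 1 +
          1856338825 * s ^ 8 * s' ^ 0) +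
        t ^ 4 * t' ^ 4 * (1547761088 * s ^ 0 * s' ^ 8 +
          50956256848 * s ^ 1 * s' ^ 7 +
          183247784936 * s ^ 2 * s' ^ 6 +
          270902610730 * s ^ 3 * s' ^ 5 +
          204226414118 * s ^ 4 * s' ^ 4 +
          92589929445 * s ^ 5 * s' ^ 3 +
          36565685546 * s ^ 6 * s' ^ 2 +
          13671667663 * s ^ 7 * s' ^ 1 +
          2517848938 * s ^ 8 * s' ^ 0) +
        t ^ 5 * t' ^ 3 * (2227605632 * s ^ 0 * s' ^ 8 +
          50562333728 * s ^ 1 * s' ^ 7 +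
          169353008480 * s ^ 2 * s' ^ 6 +
          232789155352 * s ^ 3 * s' ^ 5 +
          155046096250 * s ^ 4 * s' ^ 4 +
          54800432160 * s ^ 5 * s' ^ 3 +
          17659261783 * s ^ 6 * s' ^ 2 +
          7832466702 * s ^ 7 * s' ^ 1 +
          1689433761 * s ^ 8 * s' ^ 0) +
        t ^ 6 * t' ^ 2 * (1654384640 * s ^ 0 * s' ^ 8 +
          32502822912 * s ^ 1 * s' ^ 7 +
          104680318240 * s ^ 2 * s' ^ 6 +
          137097176960 * s ^ 3 * s' ^ 5 +
          81503983848 * s ^ 4 * s' ^ 4 +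
          18455920842 * s ^ 5 * s' ^ 3 +
          924409130 * s ^ 6 * s' ^ 2 +
          1185048802 * s ^ 7 * s' ^ 1 +
          474879646 * s ^ 8 * s' ^ 0) +
        t ^ 7 * t' ^ 1 * (500819968 * s ^ 0 * s' ^ 8 +
          11888495104 * s ^ 1 * s' ^ 7 +
          39668742944 * s ^ 2 * s' ^ 6 +
          53935775232 * s ^ 3 * s' ^ 5 +
          34309763592 * s ^ 4 * s' ^ 4 +
          9046055696 * s ^ 5 * s' ^ 3 +
          332234936 * s ^ 6 * s' ^ 2 +
          4899608 * s ^ 7 * s' ^ 1 +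
          63236484 * s ^ 8 * s' ^ 0) +
        t ^ 8 * t' ^ 0 * (5341184 * s ^ 0 * s' ^ 8 +
          1742561280 * s ^ 1 * s' ^ 7 +
          6727366400 * s ^ 2 * s' ^ 6 +
          10438645472 * s ^ 3 * s' ^ 5 +
          8326641792 * s ^ 4 * s' ^ 4 +
          3754565128 * s ^ 5 * s' ^ 3 +
          1080106192 * s ^ 6 * s' ^ 2 +
          235105352 * s ^ 7 * s' ^ 1 +
          31421664 * s ^ 8 * s' ^ 0)) / 51200000000 := by
    obtain rfl : s' = 1 - s := by linarith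
    obtain rfl : t' = 1 - t := by linarith
    simp only [J6_F, J6_D, J6_N, pm, pa, paP]
    ring
  rw [key]
  positivity

theorem J6_box11 {s s' t t' : ℝ} (h1 : s + s' = 1) (h2 : t + t' = 1) (hs : 0 ≤ s) (hs' : 0 ≤ s')
    (ht : 0 ≤ t) (ht' : 0 ≤ t') : 0 ≤ J6_F ((1 + s) / 2) ((1 + t) / 2) := by
  have key : J6_F ((1 + s) / 2) ((1 + t) / 2) =
      (t ^ 0 * t' ^ 8 * (13124480 * s ^ 0 * s' ^ 8 +
          142093976 * s ^ 1 * s' ^ 7 +
          713400602 * s ^ 2 * s' ^ 6 +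
          1856338825 * s ^ 3 * s' ^ 5 +
          2517848938 * s ^ 4 * s' ^ 4 +
          1689433761 * s ^ 5 * s' ^ 3 +
          474879646 * s ^ 6 * s' ^ 2 +
          63236484 * s ^ 7 * s' ^ 1 +
          31421664 * s ^ 8 * s' ^ 0) +
        t ^ 1 * t' ^ 7 * (142093976 * s ^ 0 * s' ^ 8 +
          1485806516 * s ^ 1 * s' ^ 7 +
          7301057195 * s ^ 2 * s' ^ 6 +
          19049563208 * s ^ 3 * s' ^ 5 +
          26613915345 * s ^ 4 * s' ^ 4 +
          19198473474 * s ^ 5 * s' ^ 3 +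
          6413025534 * s ^ 6 * s' ^ 2 +
          1006884136 * s ^ 7 * s' ^ 1 +
          267641272 * s ^ 8 * s' ^ 0) +
        t ^ 2 * t' ^ 6 * (713400602 * s ^ 0 * s' ^ 8 +
          7301057195 * s ^ 1 * s' ^ 7 +
          34797181556 * s ^ 2 * s' ^ 6 +
          89640594386 * s ^ 3 * s' ^ 5 +
          127161419320 * s ^ 4 * s' ^ 4 +
          97221309187 * s ^ 5 * s' ^ 3 +
          37520246254 * s ^ 6 * s' ^ 2 +
          7346126632 * s ^ 7 * s' ^ 1 +
          1307857632 * s ^ 8 * s' ^ 0) +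
        t ^ 3 * t' ^ 5 * (1856338825 * s ^ 0 * s' ^ 8 +
          19049563208 * s ^ 1 * s' ^ 7 +
          89640594386 * s ^ 2 * s' ^ 6 +
          228701641048 * s ^ 3 * s' ^ 5 +
          325774537639 * s ^ 4 * s' ^ 4 +
          256049831196 * s ^ 5 * s' ^ 3 +
          105838970758 * s ^ 6 * s' ^ 2 +
          22859141296 * s ^ 7 * s' ^ 1 +
          3534765080 * s ^ 8 * s' ^ 0) +
        t ^ 4 * t' ^ 4 * (2517848938 * s ^ 0 * s' ^ 8 +
          26613915345 * s ^ 1 * s' ^ 7 +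
          127161419320 * s ^ 2 * s' ^ 6 +
          325774537639 * s ^ 3 * s' ^ 5 +
          464192117348 * s ^ 4 * s' ^ 4 +
          365672617390 * s ^ 5 * s' ^ 3 +
          152460862188 * s ^ 6 * s' ^ 2 +
          33236274632 * s ^ 7 * s' ^ 1 +
          4950127152 * s ^ 8 * s' ^ 0) +
        t ^ 5 * t' ^ 3 * (1689433761 * s ^ 0 * s' ^ 8 +
          19198473474 * s ^ 1 * s' ^ 7 +
          97221309187 * s ^ 2 * s' ^ 6 +
          256049831196 * s ^ 3 * s' ^ 5 +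
          365672617390 * s ^ 4 * s' ^ 4 +
          282328160120 * s ^ 5 * s' ^ 3 +
          111960317456 * s ^ 6 * s' ^ 2 +
          22433694272 * s ^ 7 * s' ^ 1 +
          3457499232 * s ^ 8 * s' ^ 0) +
        t ^ 6 * t' ^ 2 * (474879646 * s ^ 0 * s' ^ 8 +
          6413025534 * s ^ 1 * s' ^ 7 +
          37520246254 * s ^ 2 * s' ^ 6 +
          105838970758 * s ^ 3 * s' ^ 5 +
          152460862188 * s ^ 4 * s' ^ 4 +
          111960317456 * s ^ 5 * s' ^ 3 +
          38208923360 * s ^ 6 * s' ^ 2 +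
          5567589472 * s ^ 7 * s' ^ 1 +
          1111997760 * s ^ 8 * s' ^ 0) +
        t ^ 7 * t' ^ 1 * (63236484 * s ^ 0 * s' ^ 8 +
          1006884136 * s ^ 1 * s' ^ 7 +
          7346126632 * s ^ 2 * s' ^ 6 +
          22859141296 * s ^ 3 * s' ^ 5 +
          33236274632 * s ^ 4 * s' ^ 4 +
          22433694272 * s ^ 5 * s' ^ 3 +
          5567589472 * s ^ 6 * s' ^ 2 +
          133396096 * s ^ 7 * s' ^ 1 +
          219460864 * s ^ 8 * s' ^ 0) +
        t ^ 8 * t' ^ 0 * (31421664 * s ^ 0 * s' ^ 8 +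
          267641272 * s ^ 1 * s' ^ 7 +
          1307857632 * s ^ 2 * s' ^ 6 +
          3534765080 * s ^ 3 * s' ^ 5 +
          4950127152 * s ^ 4 * s' ^ 4 +
          3457499232 * s ^ 5 * s' ^ 3 +
          1111997760 * s ^ 6 * s' ^ 2 +
          219460864 * s ^ 7 * s' ^ 1 +
          77962240 * s ^ 8 * s' ^ 0)) / 51200000000 := by
    obtain rfl : s' = 1 - s := by linarith
    obtain rfl : t' = 1 - t := by linarith
    simp only [J6_F, J6_D, J6_N, pm, pa, paP]
    ring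
  rw [key]
  positivity

theorem J6_F_nonneg' {P T : ℝ} (hP : 0 ≤ P) (hP1 : P ≤ 1) (hT : 0 ≤ T) (hT1 : T ≤ 1)
    (hPT : P ≤ T) : 0 ≤ J6_F P T := by
  rcases le_total P (1 / 2) with h1 | h1
  · rcases le_total T (1 / 2) with h2 | h2
    · have := J6_box00 (s := 2 * P) (s' := 1 - 2 * P) (t := 2 * T) (t' := 1 - 2 * T) (by ring)
        (by ring) (by linarith) (by linarith) (by linarith) (by linarith)
      convert this using 2 <;> ring
    · have := J6_box01 (s := 2 * P) (s' := 1 - 2 * P) (t := 2 * T - 1) (t' := 2 - 2 * T) (by ring)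
        (by ring) (by linarith) (by linarith) (by linarith) (by linarith)
      convert this using 2 <;> ring
  · have := J6_box11 (s := 2 * P - 1) (s' := 2 - 2 * P) (t := 2 * T - 1) (t' := 2 - 2 * T) (by ring)
      (by ring) (by linarith) (by linarith) (by linarith) (by linarith)
    convert this using 2 <;> ring

theorem J6_F_nonneg {P T : ℝ} (hP : 0 ≤ P) (hP1 : P ≤ 1) (hT : 0 ≤ T) (hT1 : T ≤ 1) :
    0 ≤ J6_F P T := by
  rcases le_total P T with h | h
  · exact J6_F_nonneg' hP hP1 hT hT1 h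
  · rw [J6_F_symm]
    exact J6_F_nonneg' hT hT1 hP hP1 h

theorem J6_pm_pos {P T : ℝ} (hP : 0 ≤ P) (hT : 0 ≤ T) : 0 < pm P T := by
  unfold pm
  apply div_pos _ (by norm_num)
  nlinarith [mul_nonneg hP hT, sq_nonneg (P - T)]

theorem J6_par {x : ℝ} (h : 0 < x ∧ x < 1) : 0 < par x ∧ par x ≤ 1 := by
  unfold par
  exact ⟨mul_pos (by linarith [h.1]) (by linarith [h.2]), by nlinarith [sq_nonneg (2 * x - 1)]⟩

/-- J6a -/
theorem certificate {p : Plane} (h : ∀ i, 0 < p i ∧ p i < 1) :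
    0 < negdiv p ∧ 1 + ‖field p‖ ^ 2 ≤ dens p * negdiv p := by
  obtain ⟨hP, hP1⟩ := J6_par (h 0)
  obtain ⟨hT, hT1⟩ := J6_par (h 1)
  have hF := J6_F_nonneg hP.le hP1 hT.le hT1
  have hm := J6_pm_pos hP.le hT.le
  have hsq : ∀ x : ℝ, (1 - 2 * x) ^ 2 = 1 - par x := by
    intro x; unfold par; ring
  have hnd : negdiv p = 4 * J6_D (par (p 0)) (par (p 1)) / (par (p 0) ^ 2 * par (p 1) ^ 2) := by
    simp only [negdiv, nfld, J6_D]
    field_simp
  have hnorm : 1 + ‖field p‖ ^ 2 =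
      J6_N (par (p 0)) (par (p 1)) / (par (p 0) ^ 2 * par (p 1) ^ 2) := by
    rw [EuclideanSpace.norm_sq_eq]
    simp only [field, Fin.sum_univ_two, Real.norm_eq_abs, sq_abs, fld, J6_N]
    simp only [Matrix.cons_val_zero, Matrix.cons_val_one, Matrix.cons_val_fin_one,
      div_pow, mul_pow, hsq]
    field_simp
    ring
  have hden : 0 < par (p 0) ^ 2 * par (p 1) ^ 2 := by positivity
  have hN : 0 < J6_N (par (p 0)) (par (p 1)) := by
    unfold J6_N
    have h1 : 0 ≤ 1 - par (p 0) := by linarith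
    have h2 : 0 ≤ 1 - par (p 1) := by linarith
    positivity
  have hD : 0 < J6_D (par (p 0)) (par (p 1)) := by
    unfold J6_F at hF
    have : 0 < pm (par (p 0)) (par (p 1)) * J6_D (par (p 0)) (par (p 1)) := by linarith
    exact (pos_iff_pos_of_mul_pos this).mp hm
  constructor
  · rw [hnd]
    positivity
  · rw [hnd, hnorm]
    unfold dens
    unfold J6_F at hF
    rw [div_le_iff₀ hden]
    have : pm (par (p 0)) (par (p 1)) / 4 *
        (4 * J6_D (par (p 0)) (par (p 1)) / (par (p 0) ^ 2 * par (p 1) ^ 2)) *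
        (par (p 0) ^ 2 * par (p 1) ^ 2) =
        pm (par (p 0)) (par (p 1)) * J6_D (par (p 0)) (par (p 1)) := by
      field_simp
    rw [this]
    linarith

/-- The coordinates, as a measurable equivalence with `ℝ × ℝ`. -/
noncomputable def J6_phi : Plane ≃ᵐ ℝ × ℝ :=
  (MeasurableEquiv.toLp 2 (Fin 2 → ℝ)).symm.trans MeasurableEquiv.finTwoArrow

theorem J6_phi_mp : MeasurePreserving J6_phi :=
  (EuclideanSpace.volume_preserving_symm_measurableEquiv_toLp (Fin 2)).trans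
    (volume_preserving_finTwoArrow ℝ)

theorem J6_phi_apply (p : Plane) : J6_phi p = (p 0, p 1) := rfl

theorem J6_square_eq : square = J6_phi ⁻¹' (Icc (0 : ℝ) 1 ×ˢ Icc (0 : ℝ) 1) := by
  ext p
  simp only [square, mem_ofPred_eq, mem_preimage, J6_phi_apply, mem_prod, mem_Icc, Fin.forall_fin_two]

theorem J6_int1 (c0 c1 c2 : ℝ) :
    ∫ x in Icc (0 : ℝ) 1, (c0 + c1 * par x + c2 * par x ^ 2) = c0 + c1 * (2 / 3) + c2 * (8 / 15) := by
  rw [integral_Icc_eq_integral_Ioc, ← intervalIntegral.integral_of_le zero_le_one]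
  have h : ∀ x ∈ uIcc (0 : ℝ) 1, HasDerivAt
      (fun x : ℝ => c0 * x + c1 * (2 * x ^ 2 - 4 / 3 * x ^ 3) +
        c2 * (16 * (x ^ 3 / 3 - x ^ 4 / 2 + x ^ 5 / 5)))
      (c0 + c1 * par x + c2 * par x ^ 2) x := by
    intro x _
    have h1 := (hasDerivAt_id x).const_mul c0
    have h2 := (((hasDerivAt_pow 2 x).const_mul 2).sub ((hasDerivAt_pow 3 x).const_mul (4 / 3))).const_mul c1
    have h3 := (((((hasDerivAt_pow 3 x).div_const 3).sub ((hasDerivAt_pow 4 x).div_const 2)).add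
      ((hasDerivAt_pow 5 x).div_const 5)).const_mul 16).const_mul c2
    refine ((h1.add h2).add h3).congr_deriv ?_
    simp only [par]
    norm_num
    ring
  rw [intervalIntegral.integral_eq_sub_of_hasDerivAt h]
  · norm_num
  · apply Continuous.intervalIntegrable
    unfold par
    fun_prop

/-- J6b -/
theorem integral_dens : IntegrableOn dens square ∧ (∀ p ∈ square, 0 ≤ dens p) ∧
    ∫ p in square, dens p ≤ 2083 / 10000 := by
  have hg : dens = fun p => (fun z : ℝ × ℝ => pm (par z.1) (par z.2) / 4) (J6_phi p) := rfl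
  have hcont : Continuous (fun z : ℝ × ℝ => pm (par z.1) (par z.2) / 4) := by
    unfold pm par
    fun_prop
  have hint : IntegrableOn (fun z : ℝ × ℝ => pm (par z.1) (par z.2) / 4)
      (Icc (0 : ℝ) 1 ×ˢ Icc (0 : ℝ) 1) :=
    hcont.continuousOn.integrableOn_compact (isCompact_Icc.prod isCompact_Icc)
  refine ⟨?_, ?_, ?_⟩
  · rw [hg, J6_square_eq]
    exact (J6_phi_mp.integrableOn_comp_preimage J6_phi.measurableEmbedding).mpr hint
  · intro p hp
    have h0 : ∀ i, 0 ≤ par (p i) := by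
      intro i
      unfold par
      exact mul_nonneg (by linarith [(hp i).1]) (by linarith [(hp i).2])
    exact div_nonneg (J6_pm_pos (h0 0) (h0 1)).le (by norm_num)
  · rw [J6_square_eq]
    have h1 := J6_phi_mp.setIntegral_preimage_emb J6_phi.measurableEmbedding
      (fun z : ℝ × ℝ => pm (par z.1) (par z.2) / 4) (Icc (0 : ℝ) 1 ×ˢ Icc (0 : ℝ) 1)
    have h2 : ∫ z in Icc (0 : ℝ) 1 ×ˢ Icc (0 : ℝ) 1, pm (par z.1) (par z.2) / 4 =
        ∫ x in Icc (0 : ℝ) 1, ∫ y in Icc (0 : ℝ) 1, pm (par x) (par y) / 4 := by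
      rw [Measure.volume_eq_prod]
      exact setIntegral_prod _ hint
    have h3 : ∀ x : ℝ, ∫ y in Icc (0 : ℝ) 1, pm (par x) (par y) / 4 =
        (720 + 4281 * (2 / 3) + 5432 * (8 / 15)) / 40000 +
          (4281 - 8756 * (2 / 3)) / 40000 * par x + 5432 / 40000 * par x ^ 2 := by
      intro x
      have := J6_int1 ((720 + 4281 * par x + 5432 * par x ^ 2) / 40000)
        ((4281 - 8756 * par x) / 40000) (5432 / 40000)
      have h4 : (fun y : ℝ => pm (par x) (par y) / 4) = fun y =>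
          (720 + 4281 * par x + 5432 * par x ^ 2) / 40000 + (4281 - 8756 * par x) / 40000 * par y
            + 5432 / 40000 * par y ^ 2 := by
        funext y
        unfold pm
        ring
      rw [h4, this]
      ring
    have h5 : ∫ p in J6_phi ⁻¹' (Icc (0 : ℝ) 1 ×ˢ Icc (0 : ℝ) 1), dens p =
        ∫ z in Icc (0 : ℝ) 1 ×ˢ Icc (0 : ℝ) 1, pm (par z.1) (par z.2) / 4 := h1
    rw [h5, h2]
    simp only [h3]
    rw [J6_int1]
    norm_num

/-- J6c -/
theorem volume_strip {ε : ℝ} (h0 : 0 < ε) (h1 : ε < 1 / 2) :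
    volume (square \ inner ε) ≤ ENNReal.ofReal (4 * ε) := by
  have hbox : ∀ a b c d : ℝ, a ≤ b → c ≤ d → volume (J6_phi ⁻¹' (Icc a b ×ˢ Icc c d)) =
      ENNReal.ofReal ((b - a) * (d - c)) := by
    intro a b c d hab hcd
    rw [J6_phi_mp.measure_preimage_equiv, Measure.volume_eq_prod, Measure.prod_prod,
      Real.volume_Icc, Real.volume_Icc, ENNReal.ofReal_mul (by linarith)]
  have hsub : square \ inner ε ⊆
      ((J6_phi ⁻¹' (Icc 0 ε ×ˢ Icc 0 1) ∪ J6_phi ⁻¹' (Icc (1 - ε) 1 ×ˢ Icc 0 1)) ∪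
        (J6_phi ⁻¹' (Icc 0 1 ×ˢ Icc 0 ε) ∪ J6_phi ⁻¹' (Icc 0 1 ×ˢ Icc (1 - ε) 1))) := by
    rintro p ⟨hp, hq⟩
    have hp' := Fin.forall_fin_two.mp hp
    obtain ⟨⟨a1, a2⟩, ⟨b1, b2⟩⟩ := hp'
    simp only [mem_union, mem_preimage, J6_phi_apply, mem_prod, mem_Icc]
    by_contra hcon
    apply hq
    simp only [not_or, not_and_or, not_le] at hcon
    obtain ⟨⟨c1, c2⟩, ⟨c3, c4⟩⟩ := hcon
    refine Fin.forall_fin_two.mpr ⟨⟨?_, ?_⟩, ⟨?_, ?_⟩⟩
    · by_contra h; push Not at h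
      rcases c1 with (c | c) | (c | c) <;> linarith
    · by_contra h; push Not at h
      rcases c2 with (c | c) | (c | c) <;> linarith
    · by_contra h; push Not at h
      rcases c3 with (c | c) | (c | c) <;> linarith
    · by_contra h; push Not at h
      rcases c4 with (c | c) | (c | c) <;> linarith
  refine (measure_mono hsub).trans ?_
  refine (measure_union_le _ _).trans ?_
  refine (add_le_add (measure_union_le _ _) (measure_union_le _ _)).trans ?_
  rw [hbox _ _ _ _ h0.le zero_le_one, hbox _ _ _ _ (by linarith) zero_le_one,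
    hbox _ _ _ _ zero_le_one h0.le, hbox _ _ _ _ zero_le_one (by linarith),
    ← ENNReal.ofReal_add (by nlinarith) (by nlinarith), ← ENNReal.ofReal_add (by nlinarith) (by nlinarith),
    ← ENNReal.ofReal_add (by nlinarith) (by nlinarith)]
  apply ENNReal.ofReal_le_ofReal
  linarith

end Pool.Agent.Lib.MP_a3bd00_gt
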