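import Pool.Agent.Lib.MP_a3bd00_gt.Fill

/-!
# Coordinates, the integral of the density, the volume of the strip
-/

set_option autoImplicit false

namespace Pool.Agent.Lib.MP_a3bd00_gt

open Set MeasureTheory Filter Topology

/-- The coordinates of a point of the plane, as a pair. -/
noncomputable def J7_co : Plane ≃ᵐ ℝ × ℝ :=
  (MeasurableEquiv.toLp 2 (Fin 2 → ℝ)).symm.trans MeasurableEquiv.finTwoArrow

theorem J7_co_apply (p : Plane) : J7_co p = (p 0, p 1) := rfl

theorem J7_co_mp : MeasurePreserving J7_co (volume : Measure Plane) volume :=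
  (volume_preserving_finTwoArrow ℝ).comp
    (EuclideanSpace.volume_preserving_symm_measurableEquiv_toLp (Fin 2))

theorem J7_inner_eq (ε : ℝ) : inner ε = J7_co ⁻¹' (Icc ε (1 - ε) ×ˢ Icc ε (1 - ε)) := by
  ext p
  simp only [inner, mem_ofPred_eq, mem_preimage, J7_co_apply, mem_prod, mem_Icc, Fin.forall_fin_two]

theorem J7_square_eq : square = inner 0 := by
  ext p
  simp [square, inner]

theorem J7_volume_inner {ε : ℝ} : volume (inner ε) = ENNReal.ofReal (1 - 2 * ε) ^ 2 := by
  rw [J7_inner_eq, J7_co_mp.measure_preimage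
    ((measurableSet_Icc.prod measurableSet_Icc).nullMeasurableSet), Measure.volume_eq_prod,
    Measure.prod_prod, Real.volume_Icc, ← sq]
  congr 2
  ring

/-- J6c -/
theorem volume_strip {ε : ℝ} (h0 : 0 < ε) (h1 : ε < 1 / 2) :
    volume (square \ inner ε) ≤ ENNReal.ofReal (4 * ε) := by
  have hm : MeasurableSet (inner ε) := by
    rw [J7_inner_eq]
    exact J7_co.measurable (measurableSet_Icc.prod measurableSet_Icc)
  have hsub : inner ε ⊆ square := fun p hp i =>
    ⟨by linarith [(hp i).1], by linarith [(hp i).2]⟩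
  have hfin : volume (inner ε) ≠ ⊤ := by
    rw [J7_volume_inner]
    exact ENNReal.pow_ne_top ENNReal.ofReal_ne_top
  rw [measure_sdiff hsub hm.nullMeasurableSet hfin, J7_square_eq, J7_volume_inner,
    J7_volume_inner, ← ENNReal.ofReal_pow (by norm_num), ← ENNReal.ofReal_pow (by linarith),
    ← ENNReal.ofReal_sub _ (by positivity)]
  refine ENNReal.ofReal_le_ofReal ?_
  nlinarith

theorem J7_setIntegral (g : ℝ × ℝ → ℝ) {ε : ℝ} :
    ∫ p in inner ε, g (p 0, p 1) = ∫ z in Icc ε (1 - ε) ×ˢ Icc ε (1 - ε), g z := by
  rw [J7_inner_eq]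
  exact J7_co_mp.setIntegral_preimage_emb J7_co.measurableEmbedding g _

theorem J7_dens_eq (p : Plane) : dens p = (fun z : ℝ × ℝ => pm (par z.1) (par z.2) / 4) (p 0, p 1) :=
  rfl

theorem J7_cont : Continuous (fun z : ℝ × ℝ => pm (par z.1) (par z.2) / 4) := by
  unfold pm par
  fun_prop

/-- J6b -/
theorem integral_dens : IntegrableOn dens square ∧ (∀ p ∈ square, 0 ≤ dens p) ∧
    ∫ p in square, dens p ≤ 2083 / 10000 := by
  refine ⟨?_, ?_, ?_⟩
  · have h1 : IntegrableOn (fun z : ℝ × ℝ => pm (par z.1) (par z.2) / 4)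
        (Icc (0:ℝ) (1 - 0) ×ˢ Icc (0:ℝ) (1 - 0)) :=
      J7_cont.continuousOn.integrableOn_compact (isCompact_Icc.prod isCompact_Icc)
    rw [J7_square_eq, J7_inner_eq]
    exact (J7_co_mp.integrableOn_comp_preimage J7_co.measurableEmbedding).2 h1
  · intro p hp
    have h : ∀ i, 0 ≤ par (p i) := fun i => by
      unfold par
      have := hp i
      nlinarith [this.1, this.2]
    have h0 := h 0
    have h1 := h 1
    unfold dens pm
    generalize par (p 0) = P at *
    generalize par (p 1) = T at *
    have : 0 ≤ (P - T) ^ 2 := sq_nonneg _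
    nlinarith [mul_nonneg h0 h1]
  · rw [J7_square_eq]
    have e1 : ∫ p in inner 0, dens p
        = ∫ z in Icc (0:ℝ) (1 - 0) ×ˢ Icc (0:ℝ) (1 - 0), pm (par z.1) (par z.2) / 4 :=
      J7_setIntegral (fun z : ℝ × ℝ => pm (par z.1) (par z.2) / 4)
    rw [e1, Measure.volume_eq_prod, setIntegral_prod _ (by
      rw [← Measure.volume_eq_prod]
      exact J7_cont.continuousOn.integrableOn_compact (isCompact_Icc.prod isCompact_Icc))]
    simp only [sub_zero, integral_Icc_eq_integral_Ioc]
    rw [← intervalIntegral.integral_of_le (by norm_num)]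
    have e2 : ∀ x : ℝ, (∫ y in Ioc (0:ℝ) 1, pm (par x) (par y) / 4)
        = (720 + 4281 * (par x + 2 / 3) + 5432 * ((par x) ^ 2 + 8 / 15) - 8756 * par x * (2 / 3))
          / 40000 := by
      intro x
      rw [← intervalIntegral.integral_of_le (by norm_num)]
      have e3 : ∀ y : ℝ, pm (par x) (par y) / 4 = (720 + 4281 * par x + 5432 * (par x) ^ 2) / 40000
          + (4281 - 8756 * par x) / 40000 * 4 * y ^ 1
          + (5432 * 16 - 4 * (4281 - 8756 * par x)) / 40000 * y ^ 2
          - 5432 * 32 / 40000 * y ^ 3 + 5432 * 16 / 40000 * y ^ 4 := by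
        intro y
        unfold pm
        generalize par x = P
        unfold par
        ring
      simp only [e3]
      rw [intervalIntegral.integral_add, intervalIntegral.integral_sub,
        intervalIntegral.integral_add, intervalIntegral.integral_add]
      · simp only [intervalIntegral.integral_const, intervalIntegral.integral_const_mul,
          integral_pow]
        norm_num
        ring
      all_goals exact (by fun_prop : Continuous _).intervalIntegrable _ _
    simp only [e2]
    have e4 : ∀ x : ℝ, (720 + 4281 * (par x + 2 / 3) + 5432 * ((par x) ^ 2 + 8 / 15)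
        - 8756 * par x * (2 / 3)) / 40000
        = (720 + 4281 * (2 / 3) + 5432 * (8 / 15)) / 40000
          + (4281 - 8756 * (2 / 3)) / 40000 * 4 * x ^ 1
          + (5432 * 16 - 4 * (4281 - 8756 * (2 / 3))) / 40000 * x ^ 2
          - 5432 * 32 / 40000 * x ^ 3 + 5432 * 16 / 40000 * x ^ 4 := by
      intro x
      unfold par
      ring
    simp only [e4]
    rw [intervalIntegral.integral_add, intervalIntegral.integral_sub,
      intervalIntegral.integral_add, intervalIntegral.integral_add]
    · simp only [intervalIntegral.integral_const, intervalIntegral.integral_const_mul,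
        integral_pow]
      norm_num
    all_goals exact (by fun_prop : Continuous _).intervalIntegrable _ _

end Pool.Agent.Lib.MP_a3bd00_gt
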