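import Pool.Agent.Lib.MP_a3bd00_gt.J1
import Pool.Agent.Lib.MP_a3bd00_gt.J2
import Pool.Agent.Lib.MP_a3bd00_gt.J3
import Pool.Agent.Lib.MP_a3bd00_gt.J4
import Pool.Agent.Lib.MP_a3bd00_gt.J5
import Pool.Agent.Lib.MP_a3bd00_gt.J6
import Pool.Agent.Lib.MP_a3bd00_gt.J7

set_option autoImplicit false

namespace Pool.Agent.Lib.MP_a3bd00_gt

open Set MeasureTheory Filter Topology

theorem half_norm_le_dist {F G : Plane → Space} (hS : Sheets F G) {p q : Plane}
    (hq : q ∈ squareEdge) : ‖half F G p‖ ≤ dist p q := by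
  have h1 : dist (F p) (F q) ≤ dist p q := by simpa using hS.lipF.dist_le_mul p q
  have h2 : dist (G p) (G q) ≤ dist p q := by simpa using hS.lipG.dist_le_mul p q
  have h3 : F q = G q := hS.edge q hq
  have h4 : ‖F p - G p‖ ≤ dist p q + dist p q := by
    have : F p - G p = (F p - F q) - (G p - G q) := by rw [h3]; abel
    rw [this]
    refine (norm_sub_le _ _).trans ?_
    rw [← dist_eq_norm, ← dist_eq_norm]
    exact add_le_add h1 h2
  unfold half
  rw [norm_smul]
  simp only [norm_inv, Real.norm_ofNat]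
  linarith

/-- the point of the boundary with `i`-th coordinate `c` -/
noncomputable def edgePt (p : Plane) (i : Fin 2) (c : ℝ) : Plane :=
  WithLp.toLp 2 (Function.update (WithLp.ofLp p) i c)

theorem dist_edgePt (p : Plane) (i : Fin 2) (c : ℝ) : dist p (edgePt p i c) = |p i - c| := by
  rw [EuclideanSpace.dist_eq]
  unfold edgePt
  fin_cases i <;> simp [Fin.sum_univ_two, Real.sqrt_sq_eq_abs, Real.dist_eq]

theorem edgePt_mem {p : Plane} (hp : p ∈ square) (i : Fin 2) {c : ℝ} (hc : c = 0 ∨ c = 1) :
    edgePt p i c ∈ squareEdge := by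
  have hc' : 0 ≤ c ∧ c ≤ 1 := by rcases hc with rfl | rfl <;> norm_num
  refine ⟨fun j => ?_, i, ?_⟩
  · by_cases h : j = i
    · subst h; simpa [edgePt] using hc'
    · simpa [edgePt, Function.update_of_ne h] using hp j
  · simpa [edgePt] using hc

theorem half_norm_le {F G : Plane → Space} (hS : Sheets F G) {p : Plane} (hp : p ∈ square)
    (i : Fin 2) : ‖half F G p‖ ≤ p i ∧ ‖half F G p‖ ≤ 1 - p i := by
  constructor
  · have h := half_norm_le_dist hS (p := p) (edgePt_mem hp i (Or.inl rfl))
    rw [dist_edgePt] at h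
    rwa [sub_zero, abs_of_nonneg (hp i).1] at h
  · have h := half_norm_le_dist hS (p := p) (edgePt_mem hp i (Or.inr rfl))
    rw [dist_edgePt, abs_sub_comm, abs_of_nonneg (by linarith [(hp i).2])] at h
    exact h

theorem half_norm_le_half {F G : Plane → Space} (hS : Sheets F G) {p : Plane} (hp : p ∈ square) :
    ‖half F G p‖ ≤ 1 / 2 := by
  have := half_norm_le hS hp 0
  linarith [this.1, this.2]

theorem lipschitz_half {F G : Plane → Space} (hS : Sheets F G) : LipschitzWith 1 (half F G) := by
  refine LipschitzWith.of_dist_le_mul fun p q => ?_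
  have h1 : dist (F p) (F q) ≤ dist p q := by simpa using hS.lipF.dist_le_mul p q
  have h2 : dist (G p) (G q) ≤ dist p q := by simpa using hS.lipG.dist_le_mul p q
  have h3 : half F G p - half F G q = (2 : ℝ)⁻¹ • ((F p - F q) - (G p - G q)) := by
    unfold half
    rw [← smul_sub]
    congr 1
    abel
  rw [dist_eq_norm, h3, norm_smul]
  have h4 := norm_sub_le (F p - F q) (G p - G q)
  rw [dist_eq_norm (F p)] at h1
  rw [dist_eq_norm (G p)] at h2
  simp only [norm_inv, Real.norm_ofNat, NNReal.coe_one, one_mul]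
  linarith

theorem measurableSet_inner (ε : ℝ) : MeasurableSet (inner ε) := by
  have : inner ε = ⋂ i, {p : Plane | ε ≤ p i ∧ p i ≤ 1 - ε} := by
    ext p; simp [inner]
  rw [this]
  refine MeasurableSet.iInter fun i => ?_
  have hm : Measurable (fun p : Plane => p i) := by fun_prop
  exact (measurableSet_le measurable_const hm).inter (measurableSet_le hm measurable_const)

theorem measurableSet_square : MeasurableSet square := by
  have : square = inner 0 := by ext p; simp [square, inner]
  rw [this]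
  exact measurableSet_inner 0

theorem volume_fill_le_eps {F G : Plane → Space} (hS : Sheets F G) {ε : ℝ} (h0 : 0 < ε)
    (h1 : ε < 1 / 2) : volume (fill F G) ≤ ENNReal.ofReal (2083 / 10000 + 12 * ε) := by
  set w : Plane → ℝ := fun q => ‖half F G q‖ ^ 2 with hwdef
  have hlip := lipschitz_half hS
  have hwlip : LipschitzOnWith 1 w square := by
    refine LipschitzOnWith.of_dist_le_mul fun p hp q hq => ?_
    have h1 := half_norm_le_half hS hp
    have h2 := half_norm_le_half hS hq
    have h3 : |‖half F G p‖ - ‖half F G q‖| ≤ dist p q := by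
      refine (abs_norm_sub_norm_le _ _).trans ?_
      rw [← dist_eq_norm]
      simpa using hlip.dist_le_mul p q
    rw [Real.dist_eq]
    simp only [hwdef, NNReal.coe_one, one_mul]
    have h4 : ‖half F G p‖ ^ 2 - ‖half F G q‖ ^ 2
        = (‖half F G p‖ + ‖half F G q‖) * (‖half F G p‖ - ‖half F G q‖) := by ring
    rw [h4, abs_mul, abs_of_nonneg (by positivity)]
    have h5 : 0 ≤ |‖half F G p‖ - ‖half F G q‖| := abs_nonneg _
    nlinarith [norm_nonneg (half F G p), norm_nonneg (half F G q)]
  have hwb : ∀ p ∈ square, ∀ i, 0 ≤ w p ∧ w p ≤ (p i) ^ 2 ∧ w p ≤ (1 - p i) ^ 2 := by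
    intro p hp i
    have h := half_norm_le hS hp i
    refine ⟨by positivity, ?_, ?_⟩
    · exact pow_le_pow_left₀ (norm_nonneg _) h.1 2
    · exact pow_le_pow_left₀ (norm_nonneg _) h.2 2
  have hdF := hS.lipF.ae_differentiableAt (μ := volume)
  have hdG := hS.lipG.ae_differentiableAt (μ := volume)
  have hdw : ∀ᵐ p, p ∈ square → DifferentiableAt ℝ w p := by
    filter_upwards [hdF, hdG] with p h1 h2 _
    have h3 : DifferentiableAt ℝ (half F G) p := (h1.sub h2).const_smul (2 : ℝ)⁻¹
    exact h3.norm_sq ℝ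
  have hsub : inner ε ⊆ square := fun p hp i =>
    ⟨by linarith [(hp i).1], by linarith [(hp i).2]⟩
  obtain ⟨hint, hle⟩ := integral_inner_le hwlip hwb hdw h0 h1
  obtain ⟨hdi, hdn, hdl⟩ := integral_dens
  -- split
  have e1 : volume (fill F G) ≤ (∫⁻ p in inner ε, jac F G p)
      + ∫⁻ p in square \ inner ε, jac F G p := by
    refine (volume_fill_le hS.lipF hS.lipG).trans ?_
    have hu : square = inner ε ∪ (square \ inner ε) := (union_sdiff_cancel hsub).symm
    calc (∫⁻ p in square, jac F G p) = ∫⁻ p in inner ε ∪ (square \ inner ε), jac F G p := by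
          rw [← hu]
      _ ≤ _ := lintegral_union_le _ _ _
  -- outer part
  have e2 : (∫⁻ p in square \ inner ε, jac F G p) ≤ ENNReal.ofReal (4 * ε) := by
    have h2 : (∫⁻ p in square \ inner ε, jac F G p) ≤ ∫⁻ _ in square \ inner ε, 1 := by
      refine lintegral_mono_ae ?_
      rw [ae_restrict_iff' (measurableSet_square.diff (measurableSet_inner ε))]
      filter_upwards [hdF, hdG] with p h1 h2 hp
      refine (jac_le hS.lipF hS.lipG h1 h2 0).2.trans ?_
      have h3 := half_norm_le_half hS hp.1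
      rw [← ENNReal.ofReal_one]
      refine ENNReal.ofReal_le_ofReal ?_
      simp only [norm_zero, map_zero, sub_zero]
      norm_num
      linarith
    refine h2.trans ?_
    rw [setLIntegral_one]
    exact volume_strip h0 h1
  -- inner part
  have e3 : (∫⁻ p in inner ε, jac F G p) ≤ ENNReal.ofReal (2083 / 10000 + 8 * ε) := by
    have h2 : (∫⁻ p in inner ε, jac F G p) ≤ ∫⁻ p in inner ε,
        ENNReal.ofReal (dens p + (w p * negdiv p - fderiv ℝ w p (field p))) := by
      refine lintegral_mono_ae ?_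
      rw [ae_restrict_iff' (measurableSet_inner ε)]
      filter_upwards [hdF, hdG] with p h1 h2 hp
      refine (jac_le hS.lipF hS.lipG h1 h2 (field p)).2.trans ?_
      refine ENNReal.ofReal_le_ofReal ?_
      have hp' : ∀ i, 0 < p i ∧ p i < 1 := fun i =>
        ⟨by linarith [(hp i).1], by linarith [(hp i).2]⟩
      obtain ⟨hD, hcert⟩ := certificate hp'
      have hρ : 0 ≤ ‖half F G p‖ := norm_nonneg _
      have hm : 0 ≤ dens p := hdn p (hsub hp)
      have hsq : √(1 + ‖field p‖ ^ 2) ≤ √(dens p * negdiv p) := Real.sqrt_le_sqrt hcert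
      have hs : √(dens p * negdiv p) = √(dens p) * √(negdiv p) := Real.sqrt_mul hm _
      have hx : √(dens p) ^ 2 = dens p := Real.sq_sqrt hm
      have hy : √(negdiv p) ^ 2 = negdiv p := Real.sq_sqrt hD.le
      have h5 : 2 * ‖half F G p‖ * √(1 + ‖field p‖ ^ 2)
          ≤ dens p + ‖half F G p‖ ^ 2 * negdiv p := by
        calc 2 * ‖half F G p‖ * √(1 + ‖field p‖ ^ 2)
            ≤ 2 * ‖half F G p‖ * (√(dens p) * √(negdiv p)) := by
              rw [← hs]; exact mul_le_mul_of_nonneg_left hsq (by positivity)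
          _ ≤ √(dens p) ^ 2 + ‖half F G p‖ ^ 2 * √(negdiv p) ^ 2 := by
              nlinarith [sq_nonneg (√(dens p) - ‖half F G p‖ * √(negdiv p))]
          _ = _ := by rw [hx, hy]
      have h6 : w p = ‖half F G p‖ ^ 2 := rfl
      rw [h6]
      linarith
    refine h2.trans ?_
    have hdi' : IntegrableOn dens (inner ε) := hdi.mono_set hsub
    have hnn : 0 ≤ᵐ[volume.restrict (inner ε)]
        fun p => dens p + (w p * negdiv p - fderiv ℝ w p (field p)) := by
      rw [EventuallyLE, ae_restrict_iff' (measurableSet_inner ε)]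
      filter_upwards [hdF, hdG] with p h1 h2 hp
      have hj := (jac_le hS.lipF hS.lipG h1 h2 (field p)).1
      have hp' : ∀ i, 0 < p i ∧ p i < 1 := fun i =>
        ⟨by linarith [(hp i).1], by linarith [(hp i).2]⟩
      obtain ⟨hD, hcert⟩ := certificate hp'
      have hρ : 0 ≤ ‖half F G p‖ := norm_nonneg _
      have hm : 0 ≤ dens p := hdn p (hsub hp)
      have hsq : √(1 + ‖field p‖ ^ 2) ≤ √(dens p * negdiv p) := Real.sqrt_le_sqrt hcert
      have hs : √(dens p * negdiv p) = √(dens p) * √(negdiv p) := Real.sqrt_mul hm _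
      have hx : √(dens p) ^ 2 = dens p := Real.sq_sqrt hm
      have hy : √(negdiv p) ^ 2 = negdiv p := Real.sq_sqrt hD.le
      have h5 : 2 * ‖half F G p‖ * √(1 + ‖field p‖ ^ 2)
          ≤ dens p + ‖half F G p‖ ^ 2 * negdiv p := by
        calc 2 * ‖half F G p‖ * √(1 + ‖field p‖ ^ 2)
            ≤ 2 * ‖half F G p‖ * (√(dens p) * √(negdiv p)) := by
              rw [← hs]; exact mul_le_mul_of_nonneg_left hsq (by positivity)
          _ ≤ √(dens p) ^ 2 + ‖half F G p‖ ^ 2 * √(negdiv p) ^ 2 := by
              nlinarith [sq_nonneg (√(dens p) - ‖half F G p‖ * √(negdiv p))]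
          _ = _ := by rw [hx, hy]
      have h6 : w p = ‖half F G p‖ ^ 2 := rfl
      simp only [Pi.zero_apply]
      rw [h6]
      linarith
    have hsum : Integrable (fun p => dens p + (w p * negdiv p - fderiv ℝ w p (field p)))
        (volume.restrict (inner ε)) := hdi'.add hint
    rw [← ofReal_integral_eq_lintegral_ofReal hsum hnn]
    refine ENNReal.ofReal_le_ofReal ?_
    rw [integral_add hdi' hint]
    have h7 : ∫ p in inner ε, dens p ≤ ∫ p in square, dens p := by
      refine setIntegral_mono_set hdi ?_ hsub.eventuallyLE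
      rw [EventuallyLE, ae_restrict_iff' measurableSet_square]
      exact ae_of_all _ fun p hp => hdn p hp
    linarith
  calc volume (fill F G) ≤ _ := e1
    _ ≤ ENNReal.ofReal (2083 / 10000 + 8 * ε) + ENNReal.ofReal (4 * ε) := add_le_add e3 e2
    _ = ENNReal.ofReal (2083 / 10000 + 12 * ε) := by
        rw [← ENNReal.ofReal_add (by positivity) (by positivity)]
        congr 1
        ring

theorem volume_fill_le_final {F G : Plane → Space} (hS : Sheets F G) :
    volume (fill F G) ≤ ENNReal.ofReal (2083 / 10000) := by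
  have ht : Tendsto (fun ε : ℝ => ENNReal.ofReal (2083 / 10000 + 12 * ε)) (𝓝[>] 0)
      (𝓝 (ENNReal.ofReal (2083 / 10000))) := by
    refine ENNReal.tendsto_ofReal ?_
    have : Tendsto (fun ε : ℝ => 2083 / 10000 + 12 * ε) (𝓝 0) (𝓝 (2083 / 10000 + 12 * 0)) :=
      Continuous.tendsto (by fun_prop) 0
    rw [mul_zero, add_zero] at this
    exact this.mono_left nhdsWithin_le_nhds
  refine ge_of_tendsto ht ?_
  have h2 : Ioo (0:ℝ) (1 / 2) ∈ 𝓝[>] (0:ℝ) := Ioo_mem_nhdsGT (by norm_num)
  filter_upwards [h2] with ε hε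
  exact volume_fill_le_eps hS hε.1 hε.2

theorem volume_enclosed_le {f : DoubleSquare → Space} (hf : IsIsometricRealization f) :
    volume (enclosed (range f)) ≤ ENNReal.ofReal (2083 / 10000) := by
  obtain ⟨F, G, hS, hF, hG⟩ := exists_sheets hf
  obtain ⟨hK, h, hc, hid, hr⟩ := exists_retraction hf.continuous hf.injective hS hF hG
  exact (measure_mono ((enclosed_subset_range hK hc hid).trans hr)).trans
    (volume_fill_le_final hS)

theorem maxVolume_le : maxVolume ≤ ENNReal.ofReal (2083 / 10000) :=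
  iSup₂_le fun _ hf => volume_enclosed_le hf

end Pool.Agent.Lib.MP_a3bd00_gt
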